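import Pool.Agent.Lib.MP_21db80_an.G.Orb

/-!
Properties of the orbifold coverings.
-/

namespace Pool.Agent.Lib.MP_21db80_an.Gen

open OnePoint Set Topology Function Filter Metric Complex

noncomputable section

variable [Orb]

lemma continuous_pw : Continuous pw := continuous_iff_continuousAt.2 fun z => (anS_pw z).continuousAt

lemma pw_of_mem {z : ℂ} (h : z ∈ Lam) : pw z = ∞ := pw_eq_infty.2 h

lemma pw_add {l : ℂ} (hl : l ∈ Lam) (z : ℂ) : pw (z + l) = pw z := by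
  simpa using pw_orb (k := 1) (by simp) hl z

lemma root_norm {k : ℂ} (h : k ^ Orb.N = 1) : ‖k‖ = 1 := norm_eq_one_of_pow_eq_one h Orb.N_ne

lemma root_ne {k : ℂ} (h : k ^ Orb.N = 1) : k ≠ 0 := by
  rintro rfl
  simpa using root_norm h

lemma root_inv {k : ℂ} (h : k ^ Orb.N = 1) : k⁻¹ ^ Orb.N = 1 := by rw [inv_pow, h, inv_one]

/-- The deck group. -/
def Gam : Subgroup (Equiv.Perm ℂ) where
  carrier := {g | ∃ k l : ℂ, k ^ Orb.N = 1 ∧ l ∈ Lam ∧ ∀ z, g z = k * z + l}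
  mul_mem' := by
    rintro g g' ⟨k, l, h1, h2, h3⟩ ⟨k', l', h4, h5, h6⟩
    exact ⟨k * k', k * l' + l, by rw [mul_pow, h1, h4, one_mul],
      add_mem (Lam_mul (root_mem h1) h5) h2, fun z => by simp [h3, h6]; ring⟩
  one_mem' := ⟨1, 0, by simp, zero_mem _, by simp⟩
  inv_mem' := by
    rintro g ⟨k, l, h1, h2, h3⟩
    refine ⟨k⁻¹, -(k⁻¹ * l), root_inv h1, neg_mem (Lam_mul (root_mem (root_inv h1)) h2),
      fun z => ?_⟩
    rw [Equiv.Perm.inv_eq_iff_eq, h3]
    have := root_ne h1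
    field_simp
    ring

lemma orb_fix {k l z : ℂ} (hk : k ^ Orb.N = 1) (hl : l ∈ Lam) (h1 : k ≠ 1) :
    ∃ b : ℂ, θ * b ∈ Lam ∧ k * z + l - z = (k - 1) * (z - b) := by
  obtain ⟨j, hj, e⟩ := root_θ hk h1
  refine ⟨j * l / θ, by rw [mul_div_cancel₀ _ θ_ne]; exact Lam_mul hj hl, ?_⟩
  have := θ_ne
  field_simp
  linear_combination -l * e

lemma root_sub {k : ℂ} (hk : k ^ Orb.N = 1) (h1 : k ≠ 1) : 1 ≤ ‖k - 1‖ := by
  by_contra h
  exact h1 (sub_eq_zero.1 (Lam_norm (sub_mem (root_mem hk) one_mem_Lam) (not_le.1 h)))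

lemma half_sep {b b' : ℂ} (h : θ * b ∈ Lam) (h' : θ * b' ∈ Lam) (hd : ‖b - b'‖ < 1 / 2) :
    b = b' := by
  have := Lam_norm (sub_mem h h') (by
    rw [← mul_sub, norm_mul]
    nlinarith [θ_le, norm_nonneg (b - b'), norm_nonneg θ])
  exact mul_left_cancel₀ θ_ne (sub_eq_zero.1 this)

/-- Points of an orbit close to a given point of it coincide with that point. -/
lemma orb_discrete (z : ℂ) : ∃ δ > 0, ∀ k l : ℂ, k ^ Orb.N = 1 → l ∈ Lam → ‖k * z + l - z‖ < δ →
    k * z + l = z := by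
  have h1 : ∀ c : ℂ, ∃ δ > 0, ∀ l ∈ Lam, ‖l - c‖ < δ → l = c := fun c => by
    by_cases h : ∃ l₀ ∈ Lam, l₀ ≠ c ∧ ‖l₀ - c‖ < 1 / 2
    · obtain ⟨l₀, a1, a2, a3⟩ := h
      refine ⟨‖l₀ - c‖, norm_pos_iff.2 (sub_ne_zero.2 a2), fun l hl a4 => ?_⟩
      have a5 := norm_sub_le (l - c) (l₀ - c)
      rw [sub_sub_sub_cancel_right] at a5
      rw [sub_eq_zero.1 (Lam_norm (sub_mem hl a1) (by linarith))] at a4
      exact absurd a4 (lt_irrefl _)
    · exact ⟨1 / 2, by norm_num, fun l hl a4 => by_contra fun a5 => h ⟨l, hl, a5, a4⟩⟩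
  choose δ h2 h3 using h1
  have hf : {k : ℂ | k ^ Orb.N = 1}.Finite :=
    (Polynomial.nthRoots Orb.N (1 : ℂ)).toFinset.finite_toSet.subset fun k hk => by
      simpa [Polynomial.mem_nthRoots (Nat.pos_of_ne_zero Orb.N_ne)] using hk
  obtain ⟨k₀, -, h4⟩ := exists_min_image _ (fun k => δ (z - k * z)) hf ⟨1, by simp⟩
  refine ⟨_, h2 (z - k₀ * z), fun k l hk hl h => ?_⟩
  rw [h3 (z - k * z) l hl (by
    rw [show l - (z - k * z) = k * z + l - z by ring]; exact h.trans_le (h4 k hk))]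
  ring

theorem cov_pw : IsCoveringMapOn pw B3ᶜ := by
  have : ContinuousConstSMul Gam ℂ := ⟨fun g => by
    obtain ⟨k, l, -, -, h⟩ := g.2
    have : (fun z : ℂ => g • z) = fun z => k * z + l := funext h
    rw [this]; fun_prop⟩
  have hq : IsQuotientMap pw := isOpenMap_pw.isQuotientMap continuous_pw pw_surj
  refine (hq.isCoveringMapOn_of_smul_disjoint (G := Gam) ?_ fun z => ?_).mono fun y hy => ?_
  · intro z z'
    constructor
    · intro e
      obtain ⟨k, l, h1, h2, h3⟩ := pw_fibre e.symm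
      have hk : k ≠ 0 := root_ne h1
      exact ⟨⟨(Equiv.mulLeft₀ k hk).trans (Equiv.addRight l), k, l, h1, h2, fun _ => rfl⟩, h3.symm⟩
    · rintro ⟨⟨g, k, l, h1, h2, h3⟩, rfl⟩
      exact (congrArg pw (h3 z')).trans (pw_orb h1 h2 z')
  · obtain ⟨δ, hδ, h⟩ := orb_discrete z
    refine ⟨ball z (δ / 2), ball_mem_nhds z (by positivity), ?_⟩
    rintro ⟨g, k, l, h1, h2, h3⟩ ⟨_, ⟨w, hw, rfl⟩, hw'⟩
    refine (h3 z).trans (h k l h1 h2 ?_)
    have a1 : ‖k * w + l - z‖ < δ / 2 := by rw [← h3, ← dist_eq_norm]; exact hw'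
    have a2 : ‖k * (z - w)‖ < δ / 2 := by
      rw [norm_mul, root_norm h1, one_mul, ← dist_eq_norm, dist_comm]; exact hw
    calc _ = ‖k * w + l - z + k * (z - w)‖ := by congr 1; ring
      _ < δ := (norm_add_le _ _).trans_lt (by linarith)
  · obtain ⟨z, rfl⟩ := pw_surj y
    refine ⟨z, ?_, rfl⟩
    rw [mem_ofPred_eq, eq_bot_iff]
    rintro ⟨g, k, l, h1, h2, h3⟩ hg
    have h4 : k * z + l = z := (h3 z).symm.trans hg
    have h5 : k = 1 := by
      by_contra h5
      obtain ⟨b, b1, b2⟩ := orb_fix (z := z) h1 h2 h5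
      rw [h4, sub_self] at b2
      have := (mul_eq_zero.1 b2.symm).resolve_left (sub_ne_zero.2 h5)
      exact hy (pw_half (sub_eq_zero.1 this ▸ b1))
    rw [Subgroup.mem_bot]
    refine Subtype.ext (Equiv.ext fun w => ?_)
    have h6 : l = 0 := by rw [h5] at h4; linear_combination h4
    simp [h3, h5, h6]

/-- Points with close images have close orbits. -/
lemma pw_unif {η : ℝ} (hη : 0 < η) : ∃ ε > 0, ∀ z z' : ℂ, dist (pw z) (pw z') < ε →
    ∃ k l : ℂ, k ^ Orb.N = 1 ∧ l ∈ Lam ∧ ‖z' - (k * z + l)‖ < η := by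
  obtain ⟨ε, hε, h⟩ := lebesgue_number_lemma_of_metric (s := univ) isCompact_univ
    (c := fun w : ℂ => pw '' ball w (η / 2)) (fun w => isOpenMap_pw _ isOpen_ball) fun y _ => by
      obtain ⟨w, rfl⟩ := pw_surj y
      exact mem_iUnion.2 ⟨w, w, mem_ball_self (by positivity), rfl⟩
  refine ⟨ε, hε, fun z z' hd => ?_⟩
  obtain ⟨w, hw⟩ := h (pw z') trivial
  obtain ⟨u, hu, e⟩ := hw hd
  obtain ⟨u', hu', e'⟩ := hw (mem_ball_self hε)
  obtain ⟨k, l, h1, h2, rfl⟩ := pw_fibre e.symm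
  obtain ⟨k', l', h3, h4, rfl⟩ := pw_fibre e'
  refine ⟨k' * k, k' * l + l', by rw [mul_pow, h1, h3, one_mul],
    add_mem (Lam_mul (root_mem h3) h2) h4, ?_⟩
  rw [show k' * u' + l' - (k' * k * z + (k' * l + l')) = k' * (u' - (k * z + l)) by ring, norm_mul,
    root_norm h3, one_mul, ← dist_eq_norm]
  linarith [dist_triangle_right u' (k * z + l) w, mem_ball.1 hu, mem_ball.1 hu']

lemma countable_fibre (y : Sph) : (pw ⁻¹' {y}).Countable := by
  obtain ⟨z, rfl⟩ := pw_surj y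
  refine ((countable_Lam.prod countable_Lam).image fun p : ℂ × ℂ => p.1 * z + p.2).mono
    fun w hw => ?_
  obtain ⟨k, l, h1, h2, rfl⟩ := pw_fibre (Eq.symm hw)
  exact ⟨(k, l), ⟨root_mem h1, h2⟩, rfl⟩

/-- The plane with small discs around the cone points removed. -/
def cheese (r : ℝ) : Set ℂ := {z | ∀ b : ℂ, θ * b ∈ Lam → r ≤ ‖z - b‖}

open Classical in
lemma isPreconnected_cheese {r : ℝ} (hr0 : 0 < r) (hr : r ≤ 1 / 10) : IsPreconnected (cheese r) := by
  let S : Set ℂ := {b | θ * b ∈ Lam}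
  have hS : S.Countable := (countable_Lam.image fun l => l / θ).mono (by
    intro b hb
    exact ⟨θ * b, hb, mul_div_cancel_left₀ b θ_ne⟩)
  let g : ℂ → ℂ → ℂ := fun b z => b + ((max (r / ‖z - b‖) 1 : ℝ) : ℂ) * (z - b)
  let f : ℂ → ℂ := fun z => if h : ∃ b ∈ S, ‖z - b‖ < 1 / 4 then g h.choose z else z
  have f1 : ∀ z, ∀ b ∈ S, ‖z - b‖ < 1 / 4 → f z = g b z := fun z b hb h => by
    have h1 : ∃ b ∈ S, ‖z - b‖ < 1 / 4 := ⟨b, hb, h⟩
    have h2 := norm_sub_le (z - b) (z - h1.choose)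
    rw [sub_sub_sub_cancel_left] at h2
    simp only [f, dif_pos h1]
    rw [half_sep h1.choose_spec.1 hb (by linarith [h1.choose_spec.2])]
  have f2 : ∀ z ∈ cheese r, f z = z := fun z hz => by
    by_cases h : ∃ b ∈ S, ‖z - b‖ < 1 / 4
    · obtain ⟨b, hb, h⟩ := h
      have h1 := hz b hb
      rw [f1 z b hb h]
      simp only [g]
      rw [max_eq_right ((div_le_one (hr0.trans_le h1)).2 h1)]
      simp
    · simp only [f, dif_neg h]
  have f3 : ContinuousOn f Sᶜ := fun z hz => by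
    refine ContinuousAt.continuousWithinAt ?_
    by_cases h : ∃ b ∈ S, ‖z - b‖ < 1 / 4
    · obtain ⟨b, hb, h⟩ := h
      have h1 : ‖z - b‖ ≠ 0 := norm_ne_zero_iff.2 (sub_ne_zero.2 fun e => hz (e ▸ hb))
      have h2 : ContinuousAt (g b) z := by
        simp only [g]
        fun_prop (disch := exact h1)
      refine h2.congr ?_
      have h3 : ∀ᶠ w in 𝓝 z, ‖w - b‖ < 1 / 4 :=
        ContinuousAt.eventually_lt (by fun_prop) continuousAt_const h
      exact h3.mono fun w hw => (f1 w b hb hw).symm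
    · refine continuousAt_id.congr ?_
      filter_upwards [ball_mem_nhds z (show (0 : ℝ) < 1 / 8 by norm_num)] with w hw
      refine (f2 w fun b hb => ?_).symm
      have h1 : 1 / 4 ≤ ‖z - b‖ := not_lt.1 fun e => h ⟨b, hb, e⟩
      have h2 := norm_sub_le (w - b) (w - z)
      rw [sub_sub_sub_cancel_left] at h2
      rw [mem_ball, dist_eq_norm] at hw
      linarith
  have f4 : f '' Sᶜ = cheese r := by
    refine Subset.antisymm ?_ fun z hz => ⟨z, fun h => ?_, f2 z hz⟩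
    · rintro _ ⟨z, hz, rfl⟩ b' hb'
      by_cases h : ∃ b ∈ S, ‖z - b‖ < 1 / 4
      · obtain ⟨b, hb, h⟩ := h
        have h1 : 0 < ‖z - b‖ := norm_pos_iff.2 (sub_ne_zero.2 fun e => hz (e ▸ hb))
        have h2 : ‖g b z - b‖ = max r ‖z - b‖ := by
          simp only [g, add_sub_cancel_left, norm_mul, Complex.norm_real]
          rw [Real.norm_of_nonneg (le_max_of_le_right zero_le_one), max_mul_of_nonneg _ _ h1.le,
            div_mul_cancel₀ _ h1.ne', one_mul]
        rw [f1 z b hb h]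
        by_cases h3 : ‖b - b'‖ < 1 / 2
        · rw [← half_sep hb hb' h3, h2]
          exact le_max_left _ _
        · have h4 := norm_sub_le (g b z - b') (g b z - b)
          rw [sub_sub_sub_cancel_left, h2] at h4
          have h5 : max r ‖z - b‖ ≤ 1 / 4 := max_le (by linarith) h.le
          linarith
      · simp only [f, dif_neg h]
        have h1 : 1 / 4 ≤ ‖z - b'‖ := not_lt.1 fun e => h ⟨b', hb', e⟩
        linarith
    · have := hz z h
      rw [sub_self, norm_zero] at this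
      linarith
  rw [← f4]
  exact (hS.isPathConnected_compl_of_one_lt_rank
    (by rw [Complex.rank_real_complex]; norm_num)).isConnected.isPreconnected.image f f3

end

end Pool.Agent.Lib.MP_21db80_an.Gen
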