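import Pool.Agent.Lib.MP_21db80_an.G.Fam

/-!
The action of a permutation of four points on the cross ratio.
-/

namespace Pool.Agent.Lib.MP_21db80_an.Gen

open OnePoint Set Topology Function Filter Metric unitInterval

noncomputable section

lemma k1_Cross (a b c d : Sph) : nrm a b c d = nrm b a d c := by
  unfold nrm
  congr 2 <;> simp only [dt] <;> ring

lemma k2_Cross (a b c d : Sph) : nrm a b c d = nrm c d a b := by
  unfold nrm
  congr 2 <;> simp only [dt] <;> ring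

lemma k3_Cross (a b c d : Sph) : nrm a b c d = nrm d c b a :=
  (k1_Cross a b c d).trans (k2_Cross b a d c)

lemma rho_Cross {a b c : Sph} (h : D3 a b c) (d : Sph) : nrm a b c d = rho (nrm a c b d) := by
  have h' : D3 a c b := ⟨h.2.2, h.2.1.symm, h.1⟩
  refine ((isMob_rho.comp (isMob_nrm h')).eq_nrm ?_ ?_ ?_ d).symm
  · rw [comp_apply, nrm_fst h', rho, mob_coe]
    simp [pr]
  · rw [comp_apply, nrm_trd, rho, mob_infty]
    simp
  · rw [comp_apply, nrm_snd h', rho, mob_coe]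
    simp

lemma sig_Cross {a b c : Sph} (h : D3 a b c) (d : Sph) : nrm a b c d = sig (nrm b c a d) := by
  have h' : D3 b c a := ⟨h.2.1, h.2.2.symm, h.1.symm⟩
  have hs : IsMob sig := isMob_mob (by simp)
  refine ((hs.comp (isMob_nrm h')).eq_nrm ?_ ?_ ?_ d).symm
  · rw [comp_apply, nrm_trd, sig, mob_infty]
    simp [pr]
  · rw [comp_apply, nrm_fst h', sig, mob_coe]
    simp
  · rw [comp_apply, nrm_snd h', sig, mob_coe]
    simp

lemma not_Cross {f : Sph → Sph} (hf : NF f) {x y z t : Sph} (h : D3 x y z) (hx : t ≠ x)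
    (hy : t ≠ y) (hz : t ≠ z) (h' : D3 (f x) (f y) (f z)) :
    nrm x y z t ≠ nrm (f x) (f y) (f z) (f t) := by
  intro e
  obtain ⟨μ, ν, hμ, hν, hf⟩ := hf
  have hq : Q3 fun u => nrm (f x) (f y) (f z) (f ((nrmH x y z h).symm u)) :=
    ⟨⟨μ.trans (nrmH _ _ _ h'), (nrmH x y z h).symm.trans ν, hμ.trans (isMob_nrmH h'),
      (isMob_nrmH h).symm.trans hν, fun u => by simp [hf]⟩,
      forall_B3 (by simp only [nrmH_symm_o0, nrm_fst h']) (by simp only [nrmH_symm_o1, nrm_snd h'])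
        (by simp only [nrmH_symm_infty, nrm_trd])⟩
  refine nrm_not_mem h hx hy hz (hq.fix ?_)
  rw [← nrmH_apply h t, Homeomorph.symm_apply_apply, nrmH_apply, e]

lemma good_Cross {f : Sph → Sph} {A : Set Sph} (hA : f '' A = A) (hi : InjOn f A) {x y z t : Sph}
    (h : D3 x y z) (hx : t ≠ x) (hy : t ≠ y) (hz : t ≠ z) (e : A = {x, y, z, t})
    (hp : (f x = x ∧ f y = z ∧ f z = y ∧ f t = t) ∨ (f x = z ∧ f y = x ∧ f z = t ∧ f t = y) ∨
      (f x = y ∧ f y = t ∧ f z = x ∧ f t = z) ∨ (f x = t ∧ f y = y ∧ f z = z ∧ f t = x) ∨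
      (f x = y ∧ f y = z ∧ f z = x ∧ f t = t) ∨ (f x = z ∧ f y = y ∧ f z = t ∧ f t = x) ∨
      (f x = x ∧ f y = t ∧ f z = y ∧ f t = z) ∨ (f x = t ∧ f y = x ∧ f z = z ∧ f t = y)) :
    ∃ x y z : Sph, D3 x y z ∧ t ≠ x ∧ t ≠ y ∧ t ≠ z ∧ A = {x, y, z, t} ∧
      D3 (f x) (f y) (f z) ∧ f t ≠ f x ∧ f t ≠ f y ∧ f t ≠ f z ∧ A = {f x, f y, f z, f t} ∧
      ∃ ρ : Sph → Sph, (ρ = rho ∨ ρ = sig) ∧ ∀ h : Sph → Sph, Injective h →
        nm x y z h t = ρ (nm (f x) (f y) (f z) h (f t)) := by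
  have mx : x ∈ A := by simp [e]
  have my : y ∈ A := by simp [e]
  have mz : z ∈ A := by simp [e]
  have mt : t ∈ A := by simp [e]
  refine ⟨x, y, z, h, hx, hy, hz, e, ⟨hi.ne mx my h.1, hi.ne my mz h.2.1, hi.ne mx mz h.2.2⟩,
    hi.ne mt mx hx, hi.ne mt my hy, hi.ne mt mz hz, ?_, ?_⟩
  · rw [← hA, e]
    simp only [image_insert_eq, image_singleton]
  rcases hp with p | p | p | p | p | p | p | p <;> rw [p.1, p.2.1, p.2.2.1, p.2.2.2]
  · exact ⟨rho, .inl rfl, fun k hk => rho_Cross (h.map hk) _⟩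
  · exact ⟨rho, .inl rfl, fun k hk => (rho_Cross (h.map hk) _).trans (congrArg _ (k1_Cross ..))⟩
  · exact ⟨rho, .inl rfl, fun k hk => (rho_Cross (h.map hk) _).trans (congrArg _ (k2_Cross ..))⟩
  · exact ⟨rho, .inl rfl, fun k hk => (rho_Cross (h.map hk) _).trans (congrArg _ (k3_Cross ..))⟩
  · exact ⟨sig, .inr rfl, fun k hk => sig_Cross (h.map hk) _⟩
  · exact ⟨sig, .inr rfl, fun k hk => (sig_Cross (h.map hk) _).trans (congrArg _ (k1_Cross ..))⟩
  · exact ⟨sig, .inr rfl, fun k hk => (sig_Cross (h.map hk) _).trans (congrArg _ (k2_Cross ..))⟩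
  · exact ⟨sig, .inr rfl, fun k hk => (sig_Cross (h.map hk) _).trans (congrArg _ (k3_Cross ..))⟩

/-- The eight permutations handled by `good_Cross`. -/
def Pat {α : Type} (f : α → α) (x y z t : α) : Prop :=
  (f x = x ∧ f y = z ∧ f z = y ∧ f t = t) ∨ (f x = z ∧ f y = x ∧ f z = t ∧ f t = y) ∨
    (f x = y ∧ f y = t ∧ f z = x ∧ f t = z) ∨ (f x = t ∧ f y = y ∧ f z = z ∧ f t = x) ∨
    (f x = y ∧ f y = z ∧ f z = x ∧ f t = t) ∨ (f x = z ∧ f y = y ∧ f z = t ∧ f t = x) ∨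
    (f x = x ∧ f y = t ∧ f z = y ∧ f t = z) ∨ (f x = t ∧ f y = x ∧ f z = z ∧ f t = y)

lemma comb_Cross {α : Type} {f : α → α} {p q r t : α} (n1 : f p ≠ f q) (n2 : f p ≠ f r)
    (n3 : f q ≠ f r) (n4 : f t ≠ f p) (n5 : f t ≠ f q) (n6 : f t ≠ f r)
    (i1 : f p = p ∨ f p = q ∨ f p = r ∨ f p = t) (i2 : f q = p ∨ f q = q ∨ f q = r ∨ f q = t)
    (i3 : f r = p ∨ f r = q ∨ f r = r ∨ f r = t) (i4 : f t = p ∨ f t = q ∨ f t = r ∨ f t = t) :
    Pat f p q r t ∨ Pat f p r q t ∨ Pat f q p r t ∨ Pat f r p q t ∨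
      (f p = p ∧ f q = q ∧ f r = r ∧ f t = t) ∨ (f p = q ∧ f q = p ∧ f r = t ∧ f t = r) ∨
      (f p = r ∧ f q = t ∧ f r = p ∧ f t = q) ∨ (f p = t ∧ f q = r ∧ f r = q ∧ f t = p) := by
  unfold Pat
  rcases i1 with e1 | e1 | e1 | e1 <;> rcases i2 with e2 | e2 | e2 | e2 <;>
    try exact absurd (e1.trans e2.symm) n1
  all_goals
    rcases i3 with e3 | e3 | e3 | e3 <;>
      first
        | exact absurd (e1.trans e3.symm) n2
        | exact absurd (e2.trans e3.symm) n3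
        | rcases i4 with e4 | e4 | e4 | e4 <;>
          first
            | exact absurd (e4.trans e1.symm) n4
            | exact absurd (e4.trans e2.symm) n5
            | exact absurd (e4.trans e3.symm) n6
            | simp only [e1, e2, e3, e4, and_self, true_or, or_true]

theorem exists_order {f : Sph → Sph} (hf : NF f) {A : Set Sph} (h4 : A.encard = 4)
    (hA : f '' A = A) {t : Sph} (ht : t ∈ A) :
    ∃ x y z : Sph, D3 x y z ∧ t ≠ x ∧ t ≠ y ∧ t ≠ z ∧ A = {x, y, z, t} ∧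
      D3 (f x) (f y) (f z) ∧ f t ≠ f x ∧ f t ≠ f y ∧ f t ≠ f z ∧ A = {f x, f y, f z, f t} ∧
      ∃ ρ : Sph → Sph, (ρ = rho ∨ ρ = sig) ∧ ∀ h : Sph → Sph, Injective h →
        nm x y z h t = ρ (nm (f x) (f y) (f z) h (f t)) := by
  have hfin : A.Finite := finite_of_encard_eq_coe (k := 4) h4
  have hi : InjOn f A := hfin.injOn_of_encard_image_eq (by rw [hA])
  have h3 : (A \ {t}).encard = 3 := by
    rw [encard_sdiff_singleton_of_mem ht, h4]
    rfl
  obtain ⟨p, q, r, pq, pr', qr, e0⟩ := encard_eq_three.1 h3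
  have m : ∀ u ∈ ({p, q, r} : Set Sph), u ∈ A ∧ t ≠ u := fun u hu => by
    rw [← e0] at hu
    exact ⟨hu.1, fun e => hu.2 e.symm⟩
  obtain ⟨mp, tp⟩ := m p (by simp)
  obtain ⟨mq, tq⟩ := m q (by simp)
  obtain ⟨mr, tr⟩ := m r (by simp)
  have e : ∀ u, u ∈ A ↔ u = p ∨ u = q ∨ u = r ∨ u = t := fun u => by
    rw [← insert_eq_of_mem ht, ← insert_sdiff_singleton, e0]
    simp only [mem_insert_iff, mem_singleton_iff]
    tauto
  have n1 := hi.ne mp mq pq
  have n2 := hi.ne mp mr pr'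
  have n3 := hi.ne mq mr qr
  have n4 := hi.ne ht mp tp
  have n5 := hi.ne ht mq tq
  have n6 := hi.ne ht mr tr
  have hn := not_Cross hf ⟨pq, qr, pr'⟩ tp tq tr ⟨n1, n3, n2⟩
  have s1 : A = {p, q, r, t} := by
    ext u
    rw [e]
    simp
  have s2 : A = {p, r, q, t} := s1.trans (by rw [insert_comm q r])
  have s3 : A = {q, p, r, t} := s1.trans (insert_comm p q _)
  have s4 : A = {r, p, q, t} := s2.trans (insert_comm p r _)
  have g1 := good_Cross hA hi ⟨pq, qr, pr'⟩ tp tq tr s1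
  have g2 := good_Cross hA hi ⟨pr', qr.symm, pq⟩ tp tr tq s2
  have g3 := good_Cross hA hi ⟨pq.symm, pr', qr⟩ tq tp tr s3
  have g4 := good_Cross hA hi ⟨pr'.symm, pq, qr.symm⟩ tr tp tq s4
  have im : ∀ u ∈ A, f u = p ∨ f u = q ∨ f u = r ∨ f u = t := fun u hu =>
    (e _).1 (hA ▸ mem_image_of_mem f hu)
  rcases comb_Cross n1 n2 n3 n4 n5 n6 (im p mp) (im q mq) (im r mr) (im t ht) with
    c | c | c | c | c | c | c | c
  · exact g1 c
  · exact g2 c
  · exact g3 c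
  · exact g4 c
  all_goals
    refine absurd ?_ hn
    rw [c.1, c.2.1, c.2.2.1, c.2.2.2]
  · exact k1_Cross p q r t
  · exact k2_Cross p q r t
  · exact k3_Cross p q r t

end

end Pool.Agent.Lib.MP_21db80_an.Gen
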