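import Pool.Agent.Lib.MP_21db80_an.G.Orb

/-!
Families of quadratic maps fixing `0, 1, ∞` with a moving marked point.
-/

namespace Pool.Agent.Lib.MP_21db80_an.Gen

open OnePoint Set Topology Function Filter Metric unitInterval

noncomputable section

/-- The cyclic permutation `0 ↦ 1 ↦ ∞ ↦ 0`. -/
def sig : Sph → Sph := mob 0 1 (-1) 1

/-- Along every path `w` outside `F` the maps `G (w t)` are related by isotopies which fix
`0, 1, ∞`, move the marked point along `w` in the source and fix `α` in the target. -/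
def Moves (α : ℂ) (F : Set Sph) (G : ℂ → Sph → Sph) : Prop :=
  ∀ w : I → ℂ, Continuous w → (∀ t, (w t : Sph) ∉ F) →
    ∃ u l : I → Sph ≃ₜ Sph, CFam u ∧ CFam l ∧ (∀ x, u 0 x = x) ∧ (∀ x, l 0 x = x) ∧
      (∀ t, ∀ x ∈ B3, u t x = x) ∧ (∀ t, ∀ x ∈ insert (α : Sph) B3, l t x = x) ∧
      (∀ t, Q3 (G (w t))) ∧ (∀ t x, G (w t) (u t x) = l t (G (w 0) x)) ∧ ∀ t, u t (w 0) = w t

/-- `G` belongs to a family in which the marked point `w₀` moves freely and its image `α` stays. -/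
def InFam (G : Sph → Sph) (w₀ α : ℂ) : Prop :=
  ∃ (F : Set Sph) (Gw : ℂ → Sph → Sph), F.Finite ∧ B3 ⊆ F ∧ (α : Sph) ∈ F ∧ (w₀ : Sph) ∉ F ∧
    Gw w₀ = G ∧ (∀ w : ℂ, (w : Sph) ∉ F → Gw w w = α) ∧ Moves α F Gw

end

end Pool.Agent.Lib.MP_21db80_an.Gen
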