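import Pool.Agent.Lib.MP_21db80_an.G.Fam

/-!
The family with a critical marked point.
-/

namespace Pool.Agent.Lib.MP_21db80_an.Gen

open OnePoint Set Topology Function Filter Metric unitInterval

noncomputable section

/-- The quadratic map fixing `0, 1, ∞` with critical point `w` and critical value `α`. -/
def GwFamC (α w : ℂ) (x : Sph) : Sph := Mo α w (sqS (Mi α w x))

lemma notMem_FamC {w : ℂ} (h : (w : Sph) ∉ B3) : w ≠ 0 ∧ w ≠ 1 :=
  ⟨fun e => h (e ▸ o0_mem), fun e => h (e ▸ o1_mem)⟩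

lemma self_FamC {α w : ℂ} (h0 : α ≠ 0) (h1 : α ≠ 1) (hw : w * (w - 1) * (w - α) ≠ 0) :
    GwFamC α w w = α := by
  rw [GwFamC, Mi_self, sqS_infty, Mo_infty h0 h1 hw]

lemma moves_FamC {α : ℂ} (αB : (α : Sph) ∉ B3) {F : Set Sph}
    (hF : ∀ w : ℂ, (w : Sph) ∉ F → w * (w - 1) * (w - α) ≠ 0 ∧ Mo α w o0 ∉ B3) :
    Moves α F (GwFamC α) := by
  intro w wc hw
  obtain ⟨h0, h1⟩ := notMem_FamC αB
  have hg := fun t => hF _ (hw t)
  have kc : Continuous fun t => kap α (w t) := by unfold kap; fun_prop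
  have xc : Continuous fun t => xi α (w t) := by
    unfold xi
    exact Continuous.div (by fun_prop) (by fun_prop) fun t => mul_ne_zero two_ne_zero (hg t).1
  let M : I → Sph ≃ₜ Sph := fun t => mobH _ _ _ _ (Mo_det h0 h1 (hg t).1)
  let N : I → Sph ≃ₜ Sph := fun t => mobH _ _ _ _ (Mi_det α (w t))
  have kc' : Continuous fun p : I × Sph => kap α (w p.1) := kc.comp continuous_fst
  have xc' : Continuous fun p : I × Sph => xi α (w p.1) := xc.comp continuous_fst
  have wc' : Continuous fun p : I × Sph => w p.1 := wc.comp continuous_fst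
  have hM : CFam M := continuous_iff_continuousAt.2 fun p =>
    continuousAt_mob (continuous_const.mul kc').continuousAt
      (continuous_const.sub ((continuous_const.mul kc').mul (xc'.pow 2))).continuousAt
      kc'.continuousAt (kc'.mul (xc'.pow 2)).neg.continuousAt continuousAt_snd
      (Mo_det h0 h1 (hg p.1).1)
  have hN : CFam N := continuous_iff_continuousAt.2 fun p =>
    continuousAt_mob xc'.continuousAt (continuous_const.sub (xc'.mul wc')).continuousAt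
      continuousAt_const wc'.neg.continuousAt continuousAt_snd (Mi_det α (w p.1))
  have Mi' : ∀ t, M t ∞ = α := fun t => Mo_infty h0 h1 (hg t).1
  obtain ⟨l, l1, l2, l3, l4⟩ := exists_push (finite_B3.insert (α : Sph)) (hM.path o0) fun t e =>
    e.elim (fun e => o0_ne_infty ((M t).injective (e.trans (Mi' t).symm))) (hg t).2
  obtain ⟨u, u1, u2, u3, u4⟩ := exists_upper' hM hN l1 l2 (fun t x hx => l3 t x (Or.inr hx))
    (fun t => fam_fix h0 h1 (hg t).1) l4 (fun t => by rw [Mi', Mi', l3 t _ (Or.inl rfl)])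
    (hg 0).2 (Mi' 0 ▸ αB)
  have Nw : ∀ t, N t (w t) = ∞ := fun t => Mi_self α (w t)
  have u5 : ∀ t, u t (w 0) = w t := fun t => by
    have := u4 t (w 0)
    rw [Nw, sqS_infty, Mi', l3 t _ (Or.inl rfl), ← Mi' t] at this
    exact (N t).injective ((sqS_eq_infty ((M t).injective this)).trans (Nw t).symm)
  exact ⟨u, l, u1, l1, u2, l2, u3, l3, fun t =>
    ⟨⟨M t, N t, isMob_mob (Mo_det h0 h1 (hg t).1), isMob_mob (Mi_det α (w t)), fun _ => rfl⟩,
      fam_fix h0 h1 (hg t).1⟩, u4, u5⟩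

theorem fam_crit {G : Sph → Sph} (hG : Q3 G) {μ ν : Sph ≃ₜ Sph} (hμ : IsMob μ) (hν : IsMob ν)
    (e : ∀ x, G x = μ (sqS (ν x))) {w₀ α : ℂ} (hw : G w₀ = α) (hwB : (w₀ : Sph) ∉ B3)
    (hαB : (α : Sph) ∉ B3) (h0 : μ o0 ∉ B3) (hc : ν w₀ = ∞) : InFam G w₀ α := by
  obtain ⟨a0, a1⟩ := notMem_FamC hαB
  obtain ⟨w0, w1⟩ := notMem_FamC hwB
  have hq : μ ∞ = α := by rw [← hw, e, hc, sqS_infty]
  have w2 : w₀ ≠ α := fun h => hwB (hG.fix (by rw [hw, h]))
  have hw' : w₀ * (w₀ - 1) * (w₀ - α) ≠ 0 :=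
    mul_ne_zero (mul_ne_zero w0 (sub_ne_zero.2 w1)) (sub_ne_zero.2 w2)
  have hGw : G = GwFamC α w₀ := funext fun x => (e x).trans (nf_unique hμ hν
    (μ' := mobH _ _ _ _ (Mo_det a0 a1 hw')) (ν' := mobH _ _ _ _ (Mi_det α w₀))
    (isMob_mob (Mo_det a0 a1 hw')) (isMob_mob (Mi_det α w₀)) hwB hc (Mi_self α w₀)
    (by rw [hq]; exact (Mo_infty a0 a1 hw').symm)
    (fun y hy => by rw [← e, hG.2 y hy]; exact (fam_fix a0 a1 hw' y hy).symm) x)
  have g0 : Mo α w₀ o0 ∉ B3 := by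
    let M := mobH _ _ _ _ (Mo_det a0 a1 hw')
    let N := mobH _ _ _ _ (Mi_det α w₀)
    have b1 : ∀ x, G x = M (sqS (N x)) := fun x => by rw [hGw]; rfl
    have b2 := (crit_iff e).1 ((crit_iff b1 (c := N.symm o0)).2 (Or.inl (by simp)))
    have b3 : N w₀ = ∞ := Mi_self α w₀
    have b4 := b2.resolve_right fun h => o0_ne_infty (by
      rw [← b3, ← ν.injective (h.trans hc.symm)]; simp)
    have b5 := b1 (N.symm o0)
    rw [e, b4, Homeomorph.apply_symm_apply, sqS_o0] at b5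
    change M o0 ∉ B3
    rwa [← b5]
  let F : Set Sph := insert ∞ ((fun z : ℂ => (z : Sph)) ''
    {w : ℂ | w * (w - 1) * (w - α) = 0 ∨ Mo α w o0 ∈ B3})
  have gF : ∀ w : ℂ, (w : Sph) ∉ F → w * (w - 1) * (w - α) ≠ 0 ∧ Mo α w o0 ∉ B3 := fun w h =>
    not_or.1 fun h' => h (Or.inr ⟨_, h', rfl⟩)
  refine ⟨F, GwFamC α, ((finite_bad a0 a1).image _).insert _, fun x hx => ?_,
    Or.inr ⟨α, Or.inl (by simp), rfl⟩, ?_, hGw.symm, fun w h => self_FamC a0 a1 (gF w h).1,
    moves_FamC hαB gF⟩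
  · induction x using OnePoint.rec with
    | infty => exact Or.inl rfl
    | coe z =>
      refine Or.inr ⟨z, Or.inl ?_, rfl⟩
      by_contra h
      have h1 : z ≠ 0 := fun e => h (by simp [e])
      have h2 : z ≠ 1 := fun e => h (by simp [e])
      simp [B3, h1, h2] at hx
  · rintro (h | ⟨z, hz, h⟩)
    · exact coe_ne_infty _ h
    · rw [coe_injective h] at hz
      exact hz.elim hw' g0

end

end Pool.Agent.Lib.MP_21db80_an.Gen
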