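import Pool.Agent.Lib.MP_21db80_an.G.Fam

/-!
The family with a marked point that is not critical.
-/

namespace Pool.Agent.Lib.MP_21db80_an.Gen

open OnePoint Set Topology Function Filter Metric unitInterval

noncomputable section

namespace FamN

/-- The quadratic map `z (a z + b) / (z - P)` with `b = 1 - P - a`. -/
def Ga (P a : ℂ) (x : Sph) : Sph :=
  pr ((lft x).1 * (a * (lft x).1 + (1 - P - a) * (lft x).2),
    (lft x).2 * ((lft x).1 - P * (lft x).2))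

/-- The midpoint of the two critical values. -/
def mid (P a : ℂ) : ℂ := 2 * a * P + (1 - P - a)

/-- Vanishes when `y` is a critical value (homogeneous in `a = n / d`). -/
def dsc (P n d y : ℂ) : ℂ :=
  (y * d - (2 * n * P + ((1 - P) * d - n))) ^ 2 - 4 * n * (P * (1 - P) * (d - n))

/-- Vanishes at the bad parameters `a = n / d`. -/
def bad (α P n d : ℂ) : ℂ := n * (d - n) * (dsc P n d 0 * dsc P n d 1 * dsc P n d α)

/-- Numerator of the parameter. -/
def num (α P w : ℂ) : ℂ := α * (w - P) - w * (1 - P)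

/-- The parameter for which `w` goes to `α`. -/
def aw (α P w : ℂ) : ℂ := num α P w / (w * (w - 1))

lemma bad_mul (α P a d : ℂ) : bad α P (a * d) d = d ^ 8 * bad α P a 1 := by
  have : ∀ y, dsc P (a * d) d y = d ^ 2 * dsc P a 1 y := fun y => by unfold dsc; ring
  simp only [bad, this]; ring

lemma finite_badN {α P w₀ : ℂ} (h : bad α P (num α P w₀) (w₀ * (w₀ - 1)) ≠ 0) :
    {w : ℂ | bad α P (num α P w) (w * (w - 1)) = 0}.Finite := by
  let n : Polynomial ℂ :=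
    Polynomial.C α * (Polynomial.X - Polynomial.C P) - Polynomial.X * Polynomial.C (1 - P)
  let d : Polynomial ℂ := Polynomial.X * (Polynomial.X - 1)
  let s : ℂ → Polynomial ℂ := fun y =>
    (Polynomial.C y * d - (Polynomial.C 2 * n * Polynomial.C P + (Polynomial.C (1 - P) * d - n))) ^ 2
      - Polynomial.C 4 * n * (Polynomial.C (P * (1 - P)) * (d - n))
  have e : ∀ w, (n * (d - n) * (s 0 * s 1 * s α)).eval w = bad α P (num α P w) (w * (w - 1)) :=
    fun w => by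
      simp only [n, d, s, bad, dsc, num, Polynomial.eval_mul, Polynomial.eval_sub,
        Polynomial.eval_add, Polynomial.eval_pow, Polynomial.eval_C, Polynomial.eval_X,
        Polynomial.eval_one]
  refine (Polynomial.finite_setOfPred_isRoot (p := n * (d - n) * (s 0 * s 1 * s α))
    fun h0 => h ?_).subset fun w hw => (e w).trans hw
  rw [← e, h0, Polynomial.eval_zero]

lemma detM {P a δ : ℂ} (ha : a ≠ 0) (hδ : δ ≠ 0) :
    (2 * a * δ - mid P a) * 1 - (2 * a * δ + mid P a) * -1 ≠ 0 := by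
  rw [show (2 * a * δ - mid P a) * 1 - (2 * a * δ + mid P a) * -1 = 4 * a * δ by ring]
  simp [ha, hδ]

lemma detN {P δ : ℂ} (hδ : δ ≠ 0) : 1 * -(P - δ) - -(P + δ) * 1 ≠ 0 := by
  rw [show 1 * -(P - δ) - -(P + δ) * 1 = 2 * δ by ring]
  simp [hδ]

/-- The outer Moebius map. -/
def MM (P : ℂ) {a δ : ℂ} (ha : a ≠ 0) (hδ : δ ≠ 0) : Sph ≃ₜ Sph :=
  mobH _ _ _ _ (detM (P := P) ha hδ)

/-- The inner Moebius map. -/
def NN (P : ℂ) {δ : ℂ} (hδ : δ ≠ 0) : Sph ≃ₜ Sph := mobH _ _ _ _ (detN (P := P) hδ)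

lemma Ga_eq {P a δ : ℂ} (ha : a ≠ 0) (hδ : δ ≠ 0) (h : a * δ ^ 2 = P * (1 - P) * (1 - a))
    (x : Sph) : Ga P a x = MM P ha hδ (sqS (NN P hδ x)) := by
  change _ = mob _ _ _ _ (sqS (mob _ _ _ _ x))
  nth_rewrite 2 [← pr_lft x]
  rw [mob_pr _ _ _ _ (lft_ne x), sqS_pr, mob_pr _ _ _ _ (sq_ne (lin_ne (detN hδ) (lft_ne x))), Ga,
    ← pr_mul (c := 4 * δ) (by simp [hδ])]
  simp only [mid]
  congr 2
  · linear_combination -4 * δ * (lft x).2 ^ 2 * h
  · ring

lemma MM_o0 (P : ℂ) {a δ : ℂ} (ha : a ≠ 0) (hδ : δ ≠ 0) :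
    MM P ha hδ o0 = ((mid P a + 2 * a * δ : ℂ) : Sph) := by
  change mob _ _ _ _ _ = _
  rw [mob_coe, pr_eq_coe_iff (by simp)]
  ring

lemma MM_infty (P : ℂ) {a δ : ℂ} (ha : a ≠ 0) (hδ : δ ≠ 0) :
    MM P ha hδ ∞ = ((mid P a - 2 * a * δ : ℂ) : Sph) := by
  change mob _ _ _ _ _ = _
  rw [mob_infty, pr_eq_coe_iff (by simp)]
  ring

lemma dsc_eq {P a δ : ℂ} (h : a * δ ^ 2 = P * (1 - P) * (1 - a)) (y : ℂ) :
    dsc P a 1 y = (mid P a + 2 * a * δ - y) * (mid P a - 2 * a * δ - y) := by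
  unfold dsc mid
  linear_combination 4 * a * h

lemma not_mem_iff {α z : ℂ} : (z : Sph) ∉ insert (α : Sph) B3 ↔ z ≠ 0 ∧ z ≠ 1 ∧ z ≠ α := by
  simp only [B3, mem_insert_iff, mem_singleton_iff, coe_eq_coe, coe_ne_infty, or_false, not_or]
  tauto

lemma good_iff {α P a δ : ℂ} (ha : a ≠ 0) (hδ : δ ≠ 0) (h : a * δ ^ 2 = P * (1 - P) * (1 - a)) :
    bad α P a 1 ≠ 0 ↔
      MM P ha hδ o0 ∉ insert (α : Sph) B3 ∧ MM P ha hδ ∞ ∉ insert (α : Sph) B3 := by
  have h1 : 1 - a ≠ 0 := fun e => mul_ne_zero ha (pow_ne_zero 2 hδ) (by rw [h, e, mul_zero])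
  rw [MM_o0, MM_infty, not_mem_iff, not_mem_iff, bad, dsc_eq h, dsc_eq h, dsc_eq h]
  simp only [ne_eq, mul_eq_zero, ha, h1, sub_eq_zero (b := (0 : ℂ)), sub_eq_zero (b := (1 : ℂ)),
    sub_eq_zero (b := α), false_or, not_or]
  tauto

lemma Ga_fix {P : ℂ} (p0 : P ≠ 0) (p1 : P ≠ 1) (a : ℂ) : ∀ x ∈ B3, Ga P a x = x := by
  refine forall_B3 ?_ ?_ ?_
  · rw [Ga, pr_eq_coe_iff (by simp [p0])]; simp
  · rw [Ga, pr_eq_coe_iff (by simp [sub_eq_zero, p1.symm])]; simp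
  · simp [Ga]

lemma Ga_self {α P a w : ℂ} (h : P * (1 - P) * (1 - a) ≠ 0) :
    Ga P a w = α ↔ num α P w = a * (w * (w - 1)) := by
  rw [Ga, pr_eq_coe_iff (ne_zero_iff.2 ?_)]
  · simp only [lft_coe, num]
    exact ⟨fun e => by linear_combination -e, fun e => by linear_combination -e⟩
  · simp only [lft_coe]
    by_cases e : w = P
    · left; rw [e]; intro h0; exact h (by linear_combination h0)
    · right; simpa [sub_eq_zero] using e

lemma exists_del {P a : ℂ} (ha : a ≠ 0) (h : P * (1 - P) * (1 - a) ≠ 0) :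
    ∃ δ : ℂ, δ ≠ 0 ∧ a * δ ^ 2 = P * (1 - P) * (1 - a) := by
  obtain ⟨s, hs⟩ := IsAlgClosed.exists_pow_nat_eq (P * (1 - P) * (1 - a) / a) two_pos
  rw [eq_div_iff ha] at hs
  exact ⟨s, by rintro rfl; exact h (by rw [← hs]; simp), by linear_combination hs⟩

lemma crit_val {G : Sph → Sph} {μ ν M N : Sph ≃ₜ Sph} (e : ∀ x, G x = μ (sqS (ν x)))
    (e' : ∀ x, G x = M (sqS (N x))) {y : Sph} (hy : y = o0 ∨ y = ∞) :
    M y = μ o0 ∨ M y = μ ∞ := by
  have a1 := e' (N.symm y)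
  rw [Homeomorph.apply_symm_apply, show sqS y = y by rcases hy with rfl | rfl <;> simp, e] at a1
  rcases (crit_iff e).1 ((crit_iff e' (c := N.symm y)).2 (by simpa using hy)) with h | h
  · rw [h, sqS_o0] at a1; exact Or.inl a1.symm
  · rw [h, sqS_infty] at a1; exact Or.inr a1.symm

lemma normal {G : Sph → Sph} (hG : Q3 G) {μ ν : Sph ≃ₜ Sph} (e : ∀ x, G x = μ (sqS (ν x)))
    (h0 : μ o0 ∉ B3) (hi : μ ∞ ∉ B3) :
    ∃ P a : ℂ, P ≠ 0 ∧ P ≠ 1 ∧ a ≠ 0 ∧ P * (1 - P) * (1 - a) ≠ 0 ∧ G = Ga P a := by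
  obtain ⟨a, b, c, a', b', c', q⟩ := hG.1.hq
  have h1 := q (1, 0) (by simp)
  have h2 := q (0, 1) (by simp)
  have h3 := q (1, 1) (by simp)
  rw [pr_zero_right, hG.2 _ infty_mem, eq_comm, pr_eq_infty_iff] at h1
  rw [pr_one_right, hG.2 _ o0_mem, eq_comm, pr_eq_coe_iff h2.1] at h2
  rw [pr_one_right, hG.2 _ o1_mem, eq_comm, pr_eq_coe_iff h3.1] at h3
  have e1 : a' = 0 := by simpa [qf] using h1.2
  have e2 : c = 0 := by simpa [qf] using h2.2
  subst e1 e2
  have e3 : a + b = b' + c' := by simpa [qf] using h3.2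
  have ha : a ≠ 0 := by simpa [qf] using h1.1
  have hc : c' ≠ 0 := by simpa [qf] using h2.1
  have gi := hG.2 _ infty_mem
  have n1 : ν.symm (ngS (ν ∞)) ≠ ∞ := fun h => by
    rw [Homeomorph.symm_apply_eq] at h
    rw [e] at gi
    rcases ngS_eq_self.1 h with h | h
    · rw [h, sqS_o0] at gi; exact h0 (gi ▸ infty_mem)
    · rw [h, sqS_infty] at gi; exact hi (by rw [gi]; exact infty_mem)
  obtain ⟨P, hP⟩ : ∃ P : ℂ, G P = ∞ := ⟨_, by
    rw [coe_c0 n1, e, Homeomorph.apply_symm_apply, sqS_ngS, ← e, gi]⟩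
  have p0 : P ≠ 0 := by rintro rfl; exact o0_ne_infty ((hG.2 _ o0_mem).symm.trans hP)
  have p1 : P ≠ 1 := by rintro rfl; exact o1_ne_infty ((hG.2 _ o1_mem).symm.trans hP)
  have h4 := q (P, 1) (by simp)
  rw [pr_one_right, hP, eq_comm, pr_eq_infty_iff] at h4
  have e4 : b' * P + c' = 0 := by simpa [qf] using h4.2
  have hb : b' ≠ 0 := by rintro rfl; exact hc (by simpa using e4)
  obtain ⟨s, rfl⟩ : ∃ s, a = b' * s := ⟨a / b', by field_simp⟩
  refine ⟨P, s, p0, p1, right_ne_zero_of_mul ha, fun h => h4.1 ?_, funext fun x => ?_⟩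
  · simp only [qf, Prod.mk_eq_zero]
    exact ⟨by linear_combination b' * h + P * e3 + P * e4, by linear_combination e4⟩
  · have := (q _ (lft_ne x)).2
    rw [pr_lft] at this
    rw [this, Ga, ← pr_mul hb ((lft x).1 * _)]
    simp only [qf]
    congr 2
    · linear_combination (lft x).1 * (lft x).2 * (e3 + e4)
    · linear_combination (lft x).2 ^ 2 * e4

lemma moves {α P : ℂ} (p0 : P ≠ 0) (p1 : P ≠ 1) {a w : I → ℂ} (ac : Continuous a)
    (wc : Continuous w) (hg : ∀ t, bad α P (a t) 1 ≠ 0) (hw : ∀ t, Ga P (a t) (w t) = α) :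
    ∃ u l : I → Sph ≃ₜ Sph, CFam u ∧ CFam l ∧ (∀ x, u 0 x = x) ∧ (∀ x, l 0 x = x) ∧
      (∀ t, ∀ x ∈ B3, u t x = x) ∧ (∀ t, ∀ x ∈ insert (α : Sph) B3, l t x = x) ∧
      (∀ t, Q3 (Ga P (a t))) ∧ (∀ t x, Ga P (a t) (u t x) = l t (Ga P (a 0) x)) ∧
      ∀ t, u t (w 0) = w t := by
  have ha : ∀ t, a t ≠ 0 := fun t => left_ne_zero_of_mul (left_ne_zero_of_mul (hg t))
  have hk : ∀ t, P * (1 - P) * (1 - a t) / a t ≠ 0 := fun t => div_ne_zero
    (mul_ne_zero (mul_ne_zero p0 (sub_ne_zero.2 p1.symm))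
      (right_ne_zero_of_mul (left_ne_zero_of_mul (hg t)))) (ha t)
  obtain ⟨L, L1, L2, -⟩ := lift_exp (G := fun x : I × Unit => P * (1 - P) * (1 - a x.1) / a x.1)
    (Continuous.div (by fun_prop) (by fun_prop) fun x => ha _) (fun x => hk _)
    (L₀ := fun _ => Complex.log (P * (1 - P) * (1 - a 0) / a 0)) continuous_const
    fun _ => Complex.exp_log (hk 0)
  obtain ⟨δ, dc, hδ, hd⟩ : ∃ δ : I → ℂ, Continuous δ ∧ (∀ t, δ t ≠ 0) ∧
      ∀ t, a t * δ t ^ 2 = P * (1 - P) * (1 - a t) :=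
    ⟨fun t => Complex.exp (L (t, ()) / 2), by fun_prop, fun t => Complex.exp_ne_zero _, fun t => by
      rw [← Complex.exp_nat_mul, Nat.cast_ofNat, mul_div_cancel₀ _ two_ne_zero, L2,
        mul_div_cancel₀ _ (ha t)]⟩
  let M : I → Sph ≃ₜ Sph := fun t => MM P (ha t) (hδ t)
  let N : I → Sph ≃ₜ Sph := fun t => NN P (hδ t)
  have e : ∀ t x, Ga P (a t) x = M t (sqS (N t x)) := fun t => Ga_eq (ha t) (hδ t) (hd t)
  have hM : CFam M := continuous_iff_continuousAt.2 fun p =>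
    continuousAt_mob (a := fun p : I × Sph => 2 * a p.1 * δ p.1 - mid P (a p.1))
      (b := fun p => 2 * a p.1 * δ p.1 + mid P (a p.1)) (c := fun _ => -1) (d := fun _ => 1)
      (by unfold mid; fun_prop) (by unfold mid; fun_prop) continuousAt_const continuousAt_const
      continuousAt_snd (detM (ha p.1) (hδ p.1))
  have hN : CFam N := continuous_iff_continuousAt.2 fun p =>
    continuousAt_mob (a := fun _ : I × Sph => 1) (b := fun p => -(P + δ p.1)) (c := fun _ => 1)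
      (d := fun p => -(P - δ p.1)) continuousAt_const (by fun_prop) continuousAt_const
      (by fun_prop) continuousAt_snd (detN (hδ p.1))
  have g0 : ∀ t, M t o0 ∉ insert (α : Sph) B3 := fun t =>
    ((good_iff (ha t) (hδ t) (hd t)).1 (hg t)).1
  have gi : ∀ t, M t ∞ ∉ insert (α : Sph) B3 := fun t =>
    ((good_iff (ha t) (hδ t) (hd t)).1 (hg t)).2
  obtain ⟨l, l1, l2, l3, l4⟩ := exists_push (finite_B3.insert (α : Sph)) (hM.path o0) g0
  obtain ⟨k, k1, k2, k3, k4⟩ := exists_push ((finite_B3.insert (α : Sph)).insert (M 0 o0))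
    (v := fun t => (l t).symm (M t ∞)) (l1.symm.cont continuous_id (hM.path ∞)) fun t h => by
      rcases h with h | h
      · rw [Homeomorph.symm_apply_eq, l4] at h
        exact o0_ne_infty ((M t).injective h).symm
      · have := l3 t _ h
        rw [Homeomorph.apply_symm_apply] at this
        exact gi t (this ▸ h)
  have k5 : (l 0).symm (M 0 ∞) = M 0 ∞ := by rw [Homeomorph.symm_apply_eq, l2]
  simp only [k5] at k4
  have m3 : ∀ t, ∀ x ∈ insert (α : Sph) B3, (k t).trans (l t) x = x := fun t x hx => by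
    rw [Homeomorph.trans_apply, k3 t x (Or.inr hx), l3 t x hx]
  have m2 : ∀ x, (k 0).trans (l 0) x = x := fun x => by rw [Homeomorph.trans_apply, k2, l2]
  obtain ⟨u, u1, u2, u3, u4⟩ := exists_upper' hM hN (k1.trans l1) m2
    (fun t x hx => m3 t x (Or.inr hx)) (fun t x hx => (e t x).symm.trans (Ga_fix p0 p1 _ x hx))
    (fun t => by rw [Homeomorph.trans_apply, k3 t _ (Or.inl rfl), l4])
    (fun t => by rw [Homeomorph.trans_apply, k4, Homeomorph.apply_symm_apply])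
    (fun h => g0 0 (Or.inr h)) fun h => gi 0 (Or.inr h)
  refine ⟨u, _, u1, k1.trans l1, u2, m2, u3, m3, fun t => ⟨⟨M t, N t,
    isMob_mob (detM (ha t) (hδ t)), isMob_mob (detN (hδ t)), e t⟩, Ga_fix p0 p1 _⟩,
    fun t x => by rw [e, e, u4], fun t => (N t).injective ?_⟩
  refine (sq_path (a := fun t => N t (w t)) (b := fun t => N t (u t (w 0))) isPreconnected_univ
    (hN.cont continuous_id (continuous_coe.comp wc)).continuousOn
    (hN.cont continuous_id (u1.path _)).continuousOn (fun t _ => (M t).injective ?_)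
    (fun t _ h => g0 t (Or.inl ?_)) (fun t _ h => gi t (Or.inl ?_)) (mem_univ 0)
    (by simp only [u2]) t trivial).symm
  · rw [u4, ← e, ← e, hw, hw, m3 t _ (Or.inl rfl)]
  · rw [← hw t, e, show N t (w t) = o0 from h, sqS_o0]
  · rw [← hw t, e, show N t (w t) = ∞ from h, sqS_infty]

end FamN

open FamN in
theorem fam_non {G : Sph → Sph} (hG : Q3 G) {μ ν : Sph ≃ₜ Sph} (hμ : IsMob μ) (hν : IsMob ν)
    (e : ∀ x, G x = μ (sqS (ν x))) {w₀ α : ℂ} (hw : G w₀ = α) (hwB : (w₀ : Sph) ∉ B3)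
    (hαB : (α : Sph) ∉ B3) (h0 : μ o0 ∉ B3) (hi : μ ∞ ∉ B3) (h0α : μ o0 ≠ α) (hiα : μ ∞ ≠ α) :
    InFam G w₀ α := by
  obtain ⟨P, a, p0, p1, ha, hk, rfl⟩ := normal hG e h0 hi
  obtain ⟨δ, hδ, hd⟩ := exists_del ha hk
  have den : ∀ w : ℂ, (w : Sph) ∉ B3 → w * (w - 1) ≠ 0 := fun w h =>
    mul_ne_zero (fun e => h (e ▸ o0_mem)) (sub_ne_zero.2 fun e => h (e ▸ o1_mem))
  have g : bad α P a 1 ≠ 0 := by
    have key : ∀ y, y = o0 ∨ y = ∞ → MM P ha hδ y ∉ insert (α : Sph) B3 := fun y hy => by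
      rcases crit_val e (Ga_eq ha hδ hd) hy with h | h <;> rw [h]
      · exact fun h => h.elim h0α h0
      · exact fun h => h.elim hiα hi
    exact (good_iff ha hδ hd).2 ⟨key _ (Or.inl rfl), key _ (Or.inr rfl)⟩
  have n0 := (Ga_self hk).1 hw
  have g' : bad α P (num α P w₀) (w₀ * (w₀ - 1)) ≠ 0 := by
    rw [n0, bad_mul]; exact mul_ne_zero (pow_ne_zero 8 (den _ hwB)) g
  let F : Set Sph := B3 ∪ (fun z : ℂ => (z : Sph)) '' {w | bad α P (num α P w) (w * (w - 1)) = 0}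
  have nw : ∀ w : ℂ, (w : Sph) ∉ F → num α P w = aw α P w * (w * (w - 1)) := fun w h =>
    (div_mul_cancel₀ _ (den w fun h' => h (Or.inl h'))).symm
  have gw : ∀ w : ℂ, (w : Sph) ∉ F → bad α P (aw α P w) 1 ≠ 0 := fun w h h' =>
    h (Or.inr ⟨w, by rw [mem_ofPred_eq, nw w h, bad_mul, h', mul_zero], rfl⟩)
  have sw : ∀ w : ℂ, (w : Sph) ∉ F → Ga P (aw α P w) w = α := fun w h =>
    (Ga_self (mul_ne_zero (mul_ne_zero p0 (sub_ne_zero.2 p1.symm))
      (right_ne_zero_of_mul (left_ne_zero_of_mul (gw w h))))).2 (nw w h)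
  refine ⟨F, fun w => Ga P (aw α P w), finite_B3.union ((finite_badN g').image _),
    subset_union_left, Or.inr ⟨α, ?_, rfl⟩, ?_, ?_, sw, fun w wc hw => ?_⟩
  · rw [mem_ofPred_eq, bad, show α * (α - 1) - num α P α = 0 by unfold num; ring]; simp
  · rintro (h | ⟨z, hz, h⟩)
    · exact hwB h
    · rw [coe_injective h] at hz; exact g' hz
  · simp only [aw, n0, mul_div_cancel_right₀ _ (den _ hwB)]
  · refine moves p0 p1 (a := fun t => aw α P (w t)) ?_ wc (fun t => gw _ (hw t))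
      fun t => sw _ (hw t)
    unfold aw num
    exact Continuous.div (by fun_prop) (by fun_prop) fun t => den _ fun h => hw t (Or.inl h)

end

end Pool.Agent.Lib.MP_21db80_an.Gen
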