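import Pool.Agent.Lib.MP_21db80_an.G.Fam

/-!
The orbifold covering with signature (3,3,3).
-/

namespace Pool.Agent.Lib.MP_21db80_an.Gen

open OnePoint Set Topology Function Filter Metric Complex

noncomputable section

namespace Hex

/-- A primitive cube root of unity. -/
def om : ℂ := ⟨-1 / 2, √3 / 2⟩

lemma sqrt3 : (√3 : ℝ) ^ 2 = 3 := Real.sq_sqrt (by norm_num)
lemma sqrt3_ne : (√3 : ℝ) ≠ 0 := by positivity

lemma om_eq : om ^ 2 + om + 1 = 0 := by
  apply Complex.ext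
  · simp [om, sq]; nlinarith [sqrt3]
  · simp [om, sq]; ring

lemma om_cube : om ^ 3 = 1 := by linear_combination (om - 1) * om_eq

lemma om_ne_one : om ≠ 1 := fun h => by
  have := om_eq
  rw [h] at this
  norm_num at this

lemma normSq_hex (a b : ℝ) : ‖(a + b * om : ℂ)‖ ^ 2 = a ^ 2 - a * b + b ^ 2 := by
  rw [← Complex.normSq_eq_norm_sq, normSq_apply]
  simp [om]
  nlinarith [sqrt3]

/-- The hexagonal lattice. -/
def LH : PeriodPair := ⟨1, om, by
  rw [LinearIndependent.pair_iff]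
  intro s t h
  have h1 := congrArg re h
  have h2 := congrArg im h
  simp [om] at h1 h2
  subst h2
  exact ⟨by simpa using h1, rfl⟩⟩

/-- The Eisenstein integers. -/
abbrev LamH : Submodule ℤ ℂ := LH.lattice

lemma mem_LamH {z : ℂ} : z ∈ LamH ↔ ∃ m n : ℤ, z = m + n * om := by
  rw [PeriodPair.mem_lattice]
  simp [LH, eq_comm]

lemma LamH_mul {z w : ℂ} (hz : z ∈ LamH) (hw : w ∈ LamH) : z * w ∈ LamH := by
  obtain ⟨a, b, rfl⟩ := mem_LamH.1 hz
  obtain ⟨c, d, rfl⟩ := mem_LamH.1 hw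
  exact mem_LamH.2 ⟨a * c - b * d, a * d + b * c - b * d, by
    push_cast; linear_combination b * d * om_eq⟩

lemma one_memH : (1 : ℂ) ∈ LamH := mem_LamH.2 ⟨1, 0, by simp⟩
lemma om_mem : om ∈ LamH := mem_LamH.2 ⟨0, 1, by simp⟩

lemma cube_eq {a b : ℂ} (h : a ^ 3 = b ^ 3) : a = b ∨ a = om * b ∨ a = om ^ 2 * b := by
  have : (a - b) * ((a - om * b) * (a - om ^ 2 * b)) = 0 := by
    linear_combination h + (-a ^ 2 * b + a * b ^ 2 * om - b ^ 3 * (om - 1)) * om_eq
  simpa [sub_eq_zero] using this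

lemma root3 {k : ℂ} (h : k ^ 3 = 1) : k = 1 ∨ k = om ∨ k = om ^ 2 := by
  simpa using cube_eq (a := k) (b := 1) (by simpa using h)

lemma exists_root {a b : ℂ} (h : a ^ 3 = b ^ 3) : ∃ k : ℂ, k ^ 3 = 1 ∧ a = k * b := by
  rcases cube_eq h with h | h | h
  · exact ⟨1, by simp, by simp [h]⟩
  · exact ⟨om, om_cube, h⟩
  · exact ⟨om ^ 2, by linear_combination (om ^ 3 + 1) * om_cube, h⟩

lemma root3_mem {k : ℂ} (h : k ^ 3 = 1) : k ∈ LamH := by
  rcases root3 h with rfl | rfl | rfl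
  exacts [one_memH, om_mem, by rw [sq]; exact LamH_mul om_mem om_mem]

lemma root3_th {k : ℂ} (h : k ^ 3 = 1) (h1 : k ≠ 1) : ∃ j ∈ LamH, j * (1 - k) = 1 - om := by
  rcases root3 h with rfl | rfl | rfl
  · exact absurd rfl h1
  · exact ⟨1, one_memH, by simp⟩
  · exact ⟨-om, neg_mem om_mem, by linear_combination om_cube⟩

lemma th_le : ‖1 - om‖ ≤ 2 := by
  have := normSq_hex 1 (-1)
  simp only [ofReal_one, ofReal_neg, neg_mul, one_mul, ← sub_eq_add_neg] at this
  nlinarith [norm_nonneg (1 - om)]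

lemma LamH_norm {l : ℂ} (hl : l ∈ LamH) (h : ‖l‖ < 1) : l = 0 := by
  obtain ⟨m, n, rfl⟩ := mem_LamH.1 hl
  have h1 := normSq_hex m n
  simp only [ofReal_intCast] at h1
  have h2 : ((m ^ 2 - m * n + n ^ 2 : ℤ) : ℝ) < 1 := by
    push_cast; nlinarith [norm_nonneg ((m : ℂ) + n * om)]
  have h3 : m ^ 2 - m * n + n ^ 2 < 1 := by exact_mod_cast h2
  have h4 : n = 0 := by nlinarith [sq_nonneg (2 * m - n)]
  have h5 : m = 0 := by subst h4; nlinarith
  simp [h4, h5]

lemma exists_near (z : ℂ) : ∃ l ∈ LamH, ‖z - l‖ ≤ 1 := by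
  obtain ⟨a, b, rfl⟩ : ∃ a b : ℝ, z = a + b * om := by
    refine ⟨z.re + z.im / √3, 2 * z.im / √3, Complex.ext ?_ ?_⟩
    · simp only [om, add_re, ofReal_re, mul_re, ofReal_im]; ring
    · simp only [om, add_im, ofReal_re, mul_im, ofReal_im]; field_simp; ring
  refine ⟨round a + round b * om, mem_LamH.2 ⟨_, _, rfl⟩, ?_⟩
  have h := normSq_hex (a - round a) (b - round b)
  have h1 := abs_le.1 (abs_sub_round a)
  have h2 := abs_le.1 (abs_sub_round b)
  rw [show (a + b * om - (round a + round b * om) : ℂ) =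
    ((a - round a : ℝ) : ℂ) + ((b - round b : ℝ) : ℂ) * om by push_cast; ring]
  refine (sq_le_one_iff₀ (norm_nonneg _)).1 ?_
  rw [h]
  generalize a - round a = s at h1 ⊢
  generalize b - round b = t at h2 ⊢
  nlinarith [mul_nonneg (sub_nonneg.2 h1.1) (sub_nonneg.2 h1.2),
    mul_nonneg (sub_nonneg.2 h2.1) (sub_nonneg.2 h2.2), sq_nonneg (s + t)]

lemma countable_LamH : (LamH : Set ℂ).Countable :=
  (countable_range fun p : ℤ × ℤ => (p.1 + p.2 * om : ℂ)).mono fun z hz => by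
    obtain ⟨m, n, rfl⟩ := mem_LamH.1 hz
    exact ⟨(m, n), rfl⟩

lemma mem_root {k z : ℂ} (hk : k ^ 3 = 1) : k * z ∈ LamH ↔ z ∈ LamH :=
  ⟨fun h => by
    have := LamH_mul (root3_mem hk) (LamH_mul (root3_mem hk) h)
    rwa [show k * (k * (k * z)) = z by linear_combination z * hk] at this,
    LamH_mul (root3_mem hk)⟩

/-- Multiplication by a cube root of unity on the lattice. -/
def rotH {k : ℂ} (hk : k ^ 3 = 1) : LamH ≃ LamH where
  toFun l := ⟨k * l, LamH_mul (root3_mem hk) l.2⟩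
  invFun l := ⟨k * (k * l), LamH_mul (root3_mem hk) (LamH_mul (root3_mem hk) l.2)⟩
  left_inv l := Subtype.ext (by simp only; linear_combination (l : ℂ) * hk)
  right_inv l := Subtype.ext (by simp only; linear_combination (l : ℂ) * hk)

/-- The Weierstrass function of the hexagonal lattice. -/
abbrev hP : ℂ → ℂ := LH.weierstrassP
/-- Its derivative. -/
abbrev hD : ℂ → ℂ := LH.derivWeierstrassP

lemma hP_root {k : ℂ} (hk : k ^ 3 = 1) (z : ℂ) : hP (k * z) = k * hP z := by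
  have h1 : ∀ w : ℂ, 1 / (k * w) ^ 2 = k * (1 / w ^ 2) := fun w => by
    rw [mul_pow, one_div, mul_inv, one_div,
      show (k ^ 2)⁻¹ = k from inv_eq_of_mul_eq_one_right (by rw [← pow_succ, hk])]
  simp only [hP, PeriodPair.weierstrassP]
  rw [← (rotH hk).tsum_eq, ← tsum_mul_left]
  congr with l
  simp only [rotH, Equiv.coe_fn_mk]
  rw [← mul_sub, h1, h1, mul_sub]

lemma hD_root {k : ℂ} (hk : k ^ 3 = 1) (z : ℂ) : hD (k * z) = hD z := by
  simp only [hD, PeriodPair.derivWeierstrassP]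
  rw [← (rotH hk).tsum_eq]
  congr with l
  simp only [rotH, Equiv.coe_fn_mk]
  rw [← mul_sub, mul_pow, hk, one_mul]

lemma g2_zero : LH.g₂ = 0 := by
  have h : om * LH.G 4 = LH.G 4 := by
    rw [PeriodPair.G, ← tsum_mul_left, ← (rotH om_cube).tsum_eq]
    congr with l
    simp only [rotH, Equiv.coe_fn_mk]
    have h0 : om ≠ 0 := fun h => by simpa [h] using om_cube
    rw [mul_pow, show om ^ 4 = om by linear_combination om * om_cube, mul_inv,
      mul_inv_cancel_left₀ h0]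
  have h1 : (om - 1) * LH.G 4 = 0 := by linear_combination h
  simp [PeriodPair.g₂, (mul_eq_zero.1 h1).resolve_left (sub_ne_zero.2 om_ne_one)]

lemma hP_ode {z : ℂ} (h : z ∉ LamH) : hD z ^ 2 = 4 * hP z ^ 3 - LH.g₃ := by
  have := LH.derivWeierstrassP_sq z h
  rwa [g2_zero, zero_mul, sub_zero] at this

open Classical in
/-- The derivative of the Weierstrass function as a map to the sphere. -/
def wq (z : ℂ) : Sph := if z ∈ LamH then ∞ else (hD z : Sph)

lemma wq_of_mem {z : ℂ} (h : z ∈ LamH) : wq z = ∞ := if_pos h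
lemma wq_of_not {z : ℂ} (h : z ∉ LamH) : wq z = hD z := if_neg h
lemma wq_eq_infty {z : ℂ} : wq z = ∞ ↔ z ∈ LamH :=
  ⟨fun h => by by_contra h'; exact coe_ne_infty _ ((wq_of_not h').symm.trans h), wq_of_mem⟩

lemma ev_notH {z : ℂ} (h : z ∉ LamH) : ∀ᶠ w in 𝓝 z, w ∉ LamH :=
  LH.isClosed_lattice.isOpen_compl.mem_nhds h

lemma an_hP {z : ℂ} (h : z ∉ LamH) : AnalyticAt ℂ hP z := LH.analyticOnNhd_weierstrassP z h
lemma an_hD {z : ℂ} (h : z ∉ LamH) : AnalyticAt ℂ hD z := LH.analyticOnNhd_derivWeierstrassP z h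

lemma anS_wq (z : ℂ) : AnS wq z := by
  by_cases h : z ∈ LamH
  · have a1 := LH.analyticAt_derivWeierstrassPExcept z
    refine ⟨fun w => ((w - z) ^ 3 * LH.derivWeierstrassPExcept z w - 2, (w - z) ^ 3),
      AnalyticAt.prod (by fun_prop) (by fun_prop), by simp, ?_⟩
    filter_upwards [LH.compl_lattice_sdiff_singleton_mem_nhds z] with w hw
    by_cases hwz : w = z
    · simp [hwz, wq_of_mem h]
    · have h1 := LH.derivWeierstrassPExcept_sub ⟨z, h⟩ w
      have h2 : (w - z) ^ 3 ≠ 0 := pow_ne_zero 3 (sub_ne_zero.2 hwz)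
      rw [wq_of_not fun h' => hw ⟨h', hwz⟩, pr_of_ne h2, sub_div, mul_div_cancel_left₀ _ h2]
      exact congrArg _ h1.symm
  · refine ⟨fun w => (hD w, 1), (an_hD h).prod analyticAt_const, by simp, ?_⟩
    filter_upwards [ev_notH h] with w hw
    simp [wq_of_not hw]

lemma half_notH : (1 / 2 : ℂ) ∉ LamH := LH.ω₁_div_two_notMem_lattice

lemma wq_nc (z : ℂ) (y : Sph) : ¬ ∀ᶠ w in 𝓝 z, wq w = y := fun h => by
  have h1 := AnS.eq_of_eventually anS_wq (anS_const y) h
  exact half_notH (wq_eq_infty.1 ((h1 _).trans ((h1 0).symm.trans (wq_of_mem (zero_mem _)))))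

lemma wq_add {l : ℂ} (hl : l ∈ LamH) (z : ℂ) : wq (z + l) = wq z := by
  by_cases h : z ∈ LamH
  · rw [wq_of_mem h, wq_of_mem (add_mem h hl)]
  · rw [wq_of_not h, wq_of_not fun h' => h (by simpa using sub_mem h' hl)]
    exact congrArg _ (LH.derivWeierstrassP_add_coe z ⟨l, hl⟩)

lemma wq_root {k : ℂ} (hk : k ^ 3 = 1) (z : ℂ) : wq (k * z) = wq z := by
  by_cases h : z ∈ LamH
  · rw [wq_of_mem h, wq_of_mem ((mem_root hk).2 h)]
  · rw [wq_of_not h, wq_of_not ((mem_root hk).not.2 h), hD_root hk]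

lemma continuous_wq : Continuous wq := continuous_iff_continuousAt.2 fun z => (anS_wq z).continuousAt

lemma isOpenMap_wq : IsOpenMap wq :=
  isOpenMap_iff_nhds_le.2 fun z => (anS_wq z).nhds_le (wq_nc z _)

lemma wq_surj : Surjective wq := by
  have h1 : range wq = wq '' closedBall 0 1 := by
    refine (image_subset_range _ _).antisymm' ?_
    rintro _ ⟨z, rfl⟩
    obtain ⟨l, hl, h⟩ := exists_near z
    exact ⟨z - l, by simpa using h, by rw [← wq_add hl]; simp⟩
  have h2 : IsClopen (range wq) :=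
    ⟨h1 ▸ ((isCompact_closedBall _ _).image continuous_wq).isClosed, isOpenMap_wq.isOpen_range⟩
  exact range_eq_univ.1 (h2.eq_univ (range_nonempty _))

lemma ev_shiftH {z : ℂ} (h : z ∉ LamH) : ∀ᶠ s in 𝓝 0, z + s ∉ LamH := by
  have : Tendsto (fun s => z + s) (𝓝 0) (𝓝 z) := Continuous.tendsto' (by fun_prop) _ _ (by simp)
  exact this.eventually (ev_notH h)

lemma deriv_shift (z : ℂ) : deriv (fun s => hP (z + s)) = fun s => hD (z + s) := by
  ext s
  rw [deriv_comp_const_add, PeriodPair.deriv_weierstrassP]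

lemma an_shift {z : ℂ} (h : z ∉ LamH) : AnalyticAt ℂ (fun s => hP (z + s)) 0 :=
  (an_hP h).comp_of_eq (by fun_prop) (by simp)

lemma ode2 {z : ℂ} (h : z ∉ LamH) :
    ∀ᶠ s in 𝓝 0, deriv (deriv fun s => hP (z + s)) s = 6 * hP (z + s) ^ 2 - 0 := by
  have := ode_second (a := 0) (b := LH.g₃) (an_shift h) (by
    filter_upwards [ev_shiftH h] with s hs
    rw [deriv_shift, hP_ode hs]; ring) (fun h' => by
      apply wq_nc z o0
      have h1 : Tendsto (fun w => w - z) (𝓝 z) (𝓝 0) :=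
        Continuous.tendsto' (by fun_prop) _ _ (by simp)
      filter_upwards [h1.eventually h', ev_notH h] with w a1 a2
      rw [deriv_shift] at a1
      simp only [add_sub_cancel] at a1
      rw [wq_of_not a2, a1])
  simpa using this

lemma hasDerivAt_hP {z : ℂ} (h : z ∉ LamH) : HasDerivAt hP (hD z) z := by
  have := (an_hP h).differentiableAt.hasDerivAt
  rwa [PeriodPair.deriv_weierstrassP] at this

lemma hasDerivAt_hD {z : ℂ} (h : z ∉ LamH) : HasDerivAt hD (6 * hP z ^ 2) z := by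
  have h1 := (ode2 h).self_of_nhds
  rw [deriv_shift, deriv_comp_const_add, add_zero, sub_zero] at h1
  exact h1 ▸ (an_hD h).differentiableAt.hasDerivAt

lemma sol_eq {z : ℂ} (h : z ∉ LamH) {g : ℂ → ℂ} (hg : AnalyticAt ℂ g 0)
    (h2 : ∀ᶠ s in 𝓝 0, deriv (deriv g) s = 6 * g s ^ 2 - 0) (e0 : hP z = g 0)
    (e1 : hD z = deriv g 0) : ∀ᶠ s in 𝓝 0, hD (z + s) = deriv g s := by
  have h3 : (fun s => hP (z + s)) =ᶠ[𝓝 0] g :=
    ode_unique (an_shift h) hg (ode2 h) h2 (by simpa using e0) (by rw [deriv_shift]; simpa using e1)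
  have h4 := h3.deriv
  rwa [deriv_shift] at h4

lemma pair_inj {z z' : ℂ} (h : z ∉ LamH) (h' : z' ∉ LamH) (e0 : hP z' = hP z)
    (e1 : hD z' = hD z) : z' - z ∈ LamH := by
  have h1 := sol_eq h' (an_shift h) (ode2 h) (by simpa using e0)
    (by rw [deriv_shift]; simpa using e1)
  rw [deriv_shift] at h1
  have h2 := AnS.eq_of_eventually (F := fun s => wq (z' + s)) (F' := fun s => wq (z + s))
    (fun s => (anS_wq _).comp (g := fun s => z' + s) (by fun_prop))
    (fun s => (anS_wq _).comp (g := fun s => z + s) (by fun_prop)) (z₀ := 0) (by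
      filter_upwards [h1, ev_shiftH h, ev_shiftH h'] with s a1 a2 a3
      rw [wq_of_not a2, wq_of_not a3, a1]) (-z)
  simp only [add_neg_cancel, wq_of_mem (zero_mem _)] at h2
  rw [sub_eq_add_neg]
  exact wq_eq_infty.1 h2

lemma wq_fibre {z z' : ℂ} (e : wq z = wq z') :
    ∃ k l : ℂ, k ^ 3 = 1 ∧ l ∈ LamH ∧ z' = k * z + l := by
  by_cases h : z ∈ LamH
  · exact ⟨1, z' - z, by simp, sub_mem (wq_eq_infty.1 (e.symm.trans (wq_of_mem h))) h, by ring⟩
  have h' : z' ∉ LamH := fun h' => h (wq_eq_infty.1 (e.trans (wq_of_mem h')))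
  rw [wq_of_not h, wq_of_not h'] at e
  have e1 : hD z = hD z' := coe_injective e
  obtain ⟨k, hk, e2⟩ := exists_root (a := hP z') (b := hP z) (by
    have a1 := hP_ode h
    have a2 := hP_ode h'
    rw [e1] at a1
    linear_combination (a1 - a2) / 4)
  exact ⟨k, _, hk, pair_inj ((mem_root hk).not.2 h) h' (by rw [hP_root hk, e2])
    (by rw [hD_root hk, e1]), by ring⟩

lemma exists_pt {x y : ℂ} (h : y ^ 2 = 4 * x ^ 3 - LH.g₃) :
    ∃ z, z ∉ LamH ∧ hP z = x ∧ hD z = y := by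
  obtain ⟨z, hz⟩ := wq_surj (y : Sph)
  have h1 : z ∉ LamH := fun h => coe_ne_infty _ (hz.symm.trans (wq_of_mem h))
  have e1 : hD z = y := coe_injective ((wq_of_not h1).symm.trans hz)
  obtain ⟨k, hk, e2⟩ := exists_root (a := x) (b := hP z) (by
    have a1 := hP_ode h1
    rw [e1] at a1
    linear_combination (a1 - h) / 4)
  exact ⟨k * z, (mem_root hk).not.2 h1, by rw [hP_root hk, e2], by rw [hD_root hk, e1]⟩

lemma hD_half {z : ℂ} (h : 2 * z ∈ LamH) : hD z = 0 := by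
  have h1 := LH.derivWeierstrassP_add_coe (-z) ⟨_, h⟩
  rw [PeriodPair.derivWeierstrassP_neg, show -z + ((⟨2 * z, h⟩ : LamH) : ℂ) = z by simp; ring] at h1
  exact CharZero.eq_neg_self_iff.1 h1

lemma g3_ne : LH.g₃ ≠ 0 := by
  intro h0
  have n1 : om / 2 ∉ LamH := LH.ω₂_div_two_notMem_lattice
  have key : ∀ z, z ∉ LamH → 2 * z ∈ LamH → hP z = 0 := fun z h h2 => by
    have := hP_ode h
    rw [hD_half h2, h0] at this
    have h3 : hP z ^ 3 = 0 := by linear_combination -this / 4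
    exact pow_eq_zero_iff (by norm_num) |>.1 h3
  have m1 : 2 * (1 / 2 : ℂ) ∈ LamH := by simpa using one_memH
  have m2 : 2 * (om / 2) ∈ LamH := by rw [mul_div_cancel₀ _ two_ne_zero]; exact om_mem
  have h := pair_inj half_notH n1 ((key _ n1 m2).trans (key _ half_notH m1).symm)
    ((hD_half m2).trans (hD_half m1).symm)
  have h1 := LamH_norm h (by
    have := normSq_hex (-1 / 2) (1 / 2)
    rw [show (((-1 / 2 : ℝ) : ℂ) + ((1 / 2 : ℝ) : ℂ) * om) = om / 2 - 1 / 2 by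
      push_cast; ring] at this
    rw [← sq_lt_one_iff₀ (norm_nonneg _), this]; norm_num)
  exact om_ne_one (by linear_combination 2 * h1)

lemma exists_ee : ∃ e : ℂ, e ^ 2 = -LH.g₃ := IsAlgClosed.exists_pow_nat_eq _ two_pos

/-- A square root of `-g₃`. -/
def ee : ℂ := exists_ee.choose

lemma ee_sq : ee ^ 2 = -LH.g₃ := exists_ee.choose_spec

lemma ee_ne : ee ≠ 0 := fun h => g3_ne (by
  have := ee_sq
  rw [h] at this
  linear_combination this)

lemma det_nu : -1 * (2 * ee) - ee * 0 ≠ 0 := by simpa using ee_ne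

/-- The orbifold covering. -/
def ph (z : ℂ) : Sph := mob (-1) ee 0 (2 * ee) (wq z)

lemma anS_ph (z : ℂ) : AnS ph z := (anS_wq z).mob (isMob_mob det_nu)

lemma ph_surj : Surjective ph := (isMob_mob det_nu).surjective.comp wq_surj

lemma ph_of_mem {z : ℂ} (h : z ∈ LamH) : ph z = ∞ := by
  simp [ph, wq_of_mem h, mob_infty]

lemma ph_of_not {z : ℂ} (h : z ∉ LamH) : ph z = (((ee - hD z) / (2 * ee) : ℂ) : Sph) := by
  rw [ph, wq_of_not h, mob_coe, zero_mul, zero_add, pr_of_ne (mul_ne_zero two_ne_zero ee_ne)]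
  congr 2; ring

lemma ph_eq_infty {z : ℂ} : ph z = ∞ ↔ z ∈ LamH :=
  ⟨fun h => by by_contra h'; exact coe_ne_infty _ ((ph_of_not h').symm.trans h), ph_of_mem⟩

lemma ph_orb {k l : ℂ} (hk : k ^ 3 = 1) (hl : l ∈ LamH) (z : ℂ) : ph (k * z + l) = ph z := by
  rw [ph, wq_add hl, wq_root hk, ph]

lemma ph_fibre {z z' : ℂ} (e : ph z = ph z') :
    ∃ k l : ℂ, k ^ 3 = 1 ∧ l ∈ LamH ∧ z' = k * z + l :=
  wq_fibre ((mobH _ _ _ _ det_nu).injective e)

lemma ph_half {z : ℂ} (h : (1 - om) * z ∈ LamH) : ph z ∈ B3 := by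
  by_cases hz : z ∈ LamH
  · simp [B3, ph_of_mem hz]
  have h1 := LH.weierstrassP_add_coe (om * z) ⟨_, h⟩
  rw [show om * z + ((⟨(1 - om) * z, h⟩ : LamH) : ℂ) = z by simp only; ring] at h1
  have h2 : (om - 1) * hP z = 0 := by linear_combination -h1 - hP_root om_cube z
  have h3 := hP_ode hz
  rw [(mul_eq_zero.1 h2).resolve_left (sub_ne_zero.2 om_ne_one)] at h3
  have h4 : hD z ^ 2 = ee ^ 2 := by rw [ee_sq, h3]; ring
  rw [ph_of_not hz]
  rcases sq_eq_sq_iff_eq_or_eq_neg.1 h4 with h5 | h5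
  · left; simp [h5]
  · right; left
    rw [h5, show ee - -ee = 2 * ee by ring, div_self (mul_ne_zero two_ne_zero ee_ne)]

lemma isOpenMap_ph : IsOpenMap ph := (mobH _ _ _ _ det_nu).isOpenMap.comp isOpenMap_wq

lemma exists_dH : ∃ d : ℂ, d ≠ 0 ∧ ∀ z, ph (z + d) = sig (ph z) := by
  have h := half_notH
  have e0 : hD (1 / 2) = 0 := hD_half (by simpa using one_memH)
  generalize (1 / 2 : ℂ) = s₀ at h e0
  have aD : AnalyticAt ℂ (fun s => hD (s₀ + s)) 0 := (an_hD h).comp_of_eq (by fun_prop) (by simp)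
  have aE : AnalyticAt ℂ (fun s => hD (s₀ + s) + ee) 0 := aD.add analyticAt_const
  have hne : ∀ᶠ s in 𝓝 0, hD (s₀ + s) + ee ≠ 0 :=
    aE.continuousAt.eventually_ne (by simpa [e0] using ee_ne)
  have dP : ∀ s, s₀ + s ∉ LamH → HasDerivAt (fun s => hP (s₀ + s)) (hD (s₀ + s)) s :=
    fun s hs => (hasDerivAt_hP hs).comp_const_add s₀ s
  have dD : ∀ s, s₀ + s ∉ LamH → HasDerivAt (fun s => hD (s₀ + s)) (6 * hP (s₀ + s) ^ 2) s :=
    fun s hs => (hasDerivAt_hD hs).comp_const_add s₀ s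
  set g : ℂ → ℂ := fun s => -2 * ee * hP (s₀ + s) / (hD (s₀ + s) + ee) with hg
  have g1 : AnalyticAt ℂ g 0 := (analyticAt_const.mul (an_shift h)).div aE hne.self_of_nhds
  have g2 : deriv g =ᶠ[𝓝 0] fun s => (ee * hD (s₀ + s) + -3 * ee ^ 2) / (hD (s₀ + s) + ee) := by
    filter_upwards [hne, ev_shiftH h] with s a1 a2
    rw [hg, (((dP s a2).const_mul (-2 * ee)).fun_div ((dD s a2).add_const ee) a1).deriv]
    have a3 := hP_ode a2
    have a4 := ee_sq
    generalize hP (s₀ + s) = x at a3 ⊢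
    generalize hD (s₀ + s) = y at a1 a3 ⊢
    field_simp
    linear_combination -3 * ee * a3 + 3 * ee * a4
  have g3 : ∀ᶠ s in 𝓝 0, deriv (deriv g) s = 6 * g s ^ 2 - 0 := by
    filter_upwards [hne, ev_shiftH h, g2.deriv] with s a1 a2 a3
    rw [a3, ((((dD s a2).const_mul ee).add_const (-3 * ee ^ 2)).fun_div
      ((dD s a2).add_const ee) a1).deriv]
    simp only [hg]
    generalize hP (s₀ + s) = x
    generalize hD (s₀ + s) = y at a1 ⊢
    field_simp
    ring
  obtain ⟨z₁, h1, e1, e2⟩ := exists_pt (x := g 0) (y := deriv g 0) (by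
    rw [g2.self_of_nhds]
    simp only [hg, add_zero, e0, zero_add]
    have a3 := hP_ode h
    have a4 := ee_sq
    have a5 := ee_ne
    rw [e0] at a3
    generalize hP s₀ = x at a3 ⊢
    field_simp
    linear_combination -8 * a3 + 9 * a4)
  have h2 := sol_eq h1 g1 g3 e1 e2
  have hd : ee * ee - -3 * ee ^ 2 * 1 ≠ 0 := by
    rw [show ee * ee - -3 * ee ^ 2 * 1 = 4 * ee ^ 2 by ring]
    exact mul_ne_zero (by norm_num) (pow_ne_zero 2 ee_ne)
  have h3 := AnS.eq_of_eventually (F := fun s => wq (z₁ + s))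
    (F' := fun s => mob ee (-3 * ee ^ 2) 1 ee (wq (s₀ + s)))
    (fun s => (anS_wq _).comp (g := fun s => z₁ + s) (by fun_prop))
    (fun s => ((anS_wq _).comp (g := fun s => s₀ + s) (by fun_prop)).mob (isMob_mob hd))
    (z₀ := 0) (by
      filter_upwards [h2, ev_shiftH h, ev_shiftH h1, hne, g2] with s a1 a2 a3 a4 a5
      rw [wq_of_not a2, wq_of_not a3, a1, a5, mob_coe, one_mul, pr_of_ne a4])
  have key : ∀ z, ph (z + (z₁ - s₀)) = sig (ph z) := by
    intro z
    have h4 := h3 (z - s₀)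
    simp only [add_sub_cancel] at h4
    rw [show z + (z₁ - s₀) = z₁ + (z - s₀) by ring, ph, h4, ph, sig]
    obtain ⟨v, hv, e⟩ := pr_surj (wq z)
    rw [← e, mob_pr _ _ _ _ hv, mob_pr _ _ _ _ (lin_ne hd hv), mob_pr _ _ _ _ hv,
      mob_pr _ _ _ _ (lin_ne det_nu hv), ← pr_mul (mul_ne_zero two_ne_zero ee_ne) (0 * _ + 1 * _)]
    congr 2 <;> ring
  refine ⟨_, fun hd => ?_, key⟩
  have := key 0
  rw [hd, add_zero, ph_of_mem (zero_mem _), sig, mob_infty, pr_of_ne (by norm_num)] at this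
  exact infty_ne_coe _ this

end Hex

open Hex in
theorem exists_hex : ∃ (O : Orb) (d : ℂ), d ≠ 0 ∧ ∀ z, O.pw (z + d) = sig (O.pw z) := by
  obtain ⟨d, d1, d2⟩ := exists_dH
  exact ⟨⟨LamH, 3, 1 - om, ph, by norm_num, LamH_mul, one_memH, sub_mem one_memH om_mem,
    sub_ne_zero.2 om_ne_one.symm, th_le, root3_mem, root3_th, LamH_norm, exists_near,
    countable_LamH, anS_ph, ph_surj, ph_eq_infty, ph_orb, ph_fibre, ph_half, isOpenMap_ph⟩,
    d, d1, d2⟩

end

end Pool.Agent.Lib.MP_21db80_an.Gen
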