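import Pool.Agent.Lib.MP_21db80_an.G.Fam

/-!
The orbifold covering with signature (2,4,4).
-/

namespace Pool.Agent.Lib.MP_21db80_an.Gen

open OnePoint Set Topology Function Filter Metric unitInterval

noncomputable section

theorem exists_sq : ∃ (O : Orb) (d : ℂ), d ≠ 0 ∧ ∀ z, O.pw (z + d) = rho (O.pw z) := by
  obtain ⟨d, d1, d2⟩ := exists_d
  exact ⟨⟨MP_21db80_an.Lam, 4, 2, MP_21db80_an.pw, by norm_num, MP_21db80_an.Lam_mul,
    MP_21db80_an.one_mem_Lam,
    by simpa [one_add_one_eq_two] using add_mem MP_21db80_an.one_mem_Lam MP_21db80_an.one_mem_Lam,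
    two_ne_zero, by simp, root4_mem, root4_two, MP_21db80_an.Lam_norm,
    MP_21db80_an.exists_Lam_near, MP_21db80_an.countable_Lam, MP_21db80_an.anS_pw,
    MP_21db80_an.pw_surj, MP_21db80_an.pw_eq_infty, MP_21db80_an.pw_orb, MP_21db80_an.pw_fibre,
    MP_21db80_an.pw_half, MP_21db80_an.isOpenMap_pw⟩, d, fun e => d1 (e ▸ zero_mem _), d2⟩

end

end Pool.Agent.Lib.MP_21db80_an.Gen
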