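import Pool.Agent.Lib.MP_21db80_an.G.GKey
import Pool.Agent.Lib.MP_21db80_an.G.FamC
import Pool.Agent.Lib.MP_21db80_an.G.FamN
import Pool.Agent.Lib.MP_21db80_an.G.Cross
import Pool.Agent.Lib.MP_21db80_an.G.Hex
import Pool.Agent.Lib.MP_21db80_an.G.Sq

/-!
The augmented deformation space of an invariant set of four points splits into infinitely many
pieces.
-/

namespace Pool.Agent.Lib.MP_21db80_an.Gen

open OnePoint Set Topology Function Filter Metric unitInterval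

noncomputable section

namespace Setup

variable [Orb] (S : Setup)

lemma card : 3 ≤ S.A.encard := by
  have : ({S.x, S.y, S.z} : Set Sph).encard = 3 :=
    encard_eq_three.2 ⟨_, _, _, S.dU.1, S.dU.2.2, S.dU.2.1, rfl⟩
  rw [← this]
  refine encard_le_encard ?_
  rintro x (rfl | rfl | rfl)
  exacts [S.mx, S.my, S.mz]

lemma cardB : 3 ≤ S.B.encard := S.card.trans (encard_le_encard S.hAB)

lemma surj : Surjective S.f := by
  rw [funext S.ef]; exact S.μ.surjective.comp (sqS_surj.comp S.ν.surjective)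

lemma mem_AD {φ ψ : Sph ≃ₜ Sph} (hφ : IsoRel S.A φ) (hψ : IsoRel S.A ψ)
    (e : ∀ x, S.f (ψ x) = φ (S.f x)) :
    Quot.mk _ ⟨one S.B φ (hφ.mono (empty_subset _)), one_stable S.cardB⟩ ∈ AD S.f S.A S.B := by
  refine ⟨_, rfl, one S.A ψ (hψ.mono (empty_subset _)), fun y _ => S.f (y (0 : Fin 1)),
    ⟨fun v => ⟨(0 : Fin 1), S.f, 2, S.deg, fun y _ =>
      ⟨one_comp (hh := hφ.mono (empty_subset _)) _ _, ?_⟩⟩, ?_,
      fun y hy => (one_nodes hy).elim, ⟨2, ?_⟩, fun y hy => (one_nodes hy).elim⟩,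
    fun x => funext fun _ => e x, _, one_stable S.card, one_isStab S.card hψ, one_isStab S.card hφ⟩
  · rw [Subsingleton.elim v (0 : Fin 1)]
  · rintro _ ⟨x, rfl⟩
    obtain ⟨x, rfl⟩ := S.surj x
    exact ⟨_, ⟨x, rfl⟩, funext fun _ => e x⟩
  · refine (toFinite {fun _ => S.μ o0, fun _ => S.μ ∞}).subset ?_
    rintro _ ⟨⟨x, rfl⟩, hx⟩
    by_contra hn
    obtain ⟨s, hs⟩ := sqS_surj (S.μ.symm (φ x))
    have h1 : ngS s ≠ s := fun h => hn (by
      rcases ngS_eq_self.1 h with rfl | rfl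
      · exact Or.inl (funext fun _ => by
          rw [sqS_o0, Homeomorph.eq_symm_apply] at hs; exact hs.symm)
      · exact Or.inr (funext fun _ => by
          rw [sqS_infty, Homeomorph.eq_symm_apply] at hs; exact hs.symm))
    refine hx (encard_eq_two.2 ⟨fun _ => S.ν.symm s, fun _ => S.ν.symm (ngS s),
      fun h => h1 (S.ν.symm.injective (congrFun h (0 : Fin 1))).symm, ?_⟩)
    ext y
    have h2 : y ∈ range (pt (one S.A ψ (hψ.mono (empty_subset _))).φ) := by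
      rw [Marking.onto]; exact mem_iUnion.2 ⟨(0 : Fin 1), one_comp _ _⟩
    have h3 : ∀ z, y = (fun _ => z) ↔ y (0 : Fin 1) = z := fun z =>
      ⟨fun h => congrFun h _, fun h => funext fun v => by rw [Subsingleton.elim v (0 : Fin 1), h]⟩
    have h4 : (fun _ => S.f (y (0 : Fin 1))) = pt (one S.B φ (hφ.mono (empty_subset _))).φ x ↔
        S.f (y (0 : Fin 1)) = φ x := ⟨fun h => congrFun h (0 : Fin 1), fun h => funext fun _ => h⟩
    simp only [mem_inter_iff, h2, true_and, mem_preimage, mem_singleton_iff, mem_insert_iff, h3]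
    refine h4.trans ?_
    rw [S.ef, ← Homeomorph.eq_symm_apply, ← hs, sqS_eq_iff, Homeomorph.eq_symm_apply,
      Homeomorph.eq_symm_apply]

/-- The set where the invariant takes the value `n`. -/
def O (n : ℤ) : Set (AT S.B) := {τ | Quot.lift (fun m : {m : Marking S.B // Stable m} => S.Val m.1 n)
  (fun _ _ h => propext ⟨Val.of_equiv h.symm, Val.of_equiv h⟩) τ}

lemma isOpen_O (n : ℤ) : IsOpen[bers S.B] (S.O n) := by
  let _ := bers S.B
  refine isOpen_iff_forall_mem_open.2 ?_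
  rintro ⟨m⟩ ⟨ε, hε, H⟩
  refine ⟨_, ?_, TopologicalSpace.GenerateOpen.basic _ ⟨m.1.k, fun i => ball (m.1.φ i) (ε / 2),
    fun _ => isOpen_ball, rfl⟩, m, fun i => ⟨_, mem_ball_self (by positivity), i, 1, by simp⟩, rfl⟩
  rintro _ ⟨m', hm', rfl⟩
  choose k k1 v g k2 using hm'
  obtain ⟨ε', hε', K⟩ := unif_fin g (η := ε / 2) (by positivity)
  refine ⟨ε', hε', fun h hn => H h ⟨hn.1, fun i => ?_⟩⟩
  obtain ⟨M, hM, hd⟩ := hn.2 (v i)
  refine ⟨_, (isMob_smul (g i)).comp hM, fun x => ?_⟩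
  have a1 := K i _ _ (hd x)
  have a2 := (ContinuousMap.dist_apply_le_dist x).trans_lt (mem_ball.1 (k1 i))
  rw [← k2] at a1
  exact (dist_triangle _ _ _).trans_lt (by simp only [Function.comp]; linarith)

lemma cover {τ : AT S.B} (h : τ ∈ AD S.f S.A S.B) : ∃ n, τ ∈ S.O n := by
  obtain ⟨φ, rfl, ψ, F, hF, e, χ, -, h1, h2⟩ := h
  exact key hF e h1 h2

lemma inFam : ∃ w₀ α : ℂ, pw S.w0.1 = w₀ ∧ pw S.w0.2 = α ∧ InFam S.G0 w₀ α := by
  have fin : ∀ x, x ∉ B3 → ∃ z : ℂ, x = z := fun x hx => by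
    induction x using OnePoint.rec with
    | infty => exact absurd infty_mem hx
    | coe z => exact ⟨z, rfl⟩
  obtain ⟨w₀, hw⟩ := fin _ S.pB
  obtain ⟨α, hα⟩ := fin _ S.qB
  have e : S.G0 w₀ = α := by rw [← hw, ← hα]; exact S.hw0.1
  have ne : ∀ v, v ∉ S.A → S.NL v ≠ α := fun v hv h => hv (by
    rw [← hα, pw_q] at h
    exact S.NL.injective h ▸ S.nt)
  refine ⟨w₀, α, hw, hα, S.hi'.elim (fun h => ?_) fun h => ?_⟩
  · exact fam_crit S.q3 S.mobL S.mobU S.eG e (hw ▸ S.pB) (hα ▸ S.qB) S.vB (by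
      rw [← hw, pw_p]; simp [h])
  · exact fam_non S.q3 S.mobL S.mobU S.eG e (hw ▸ S.pB) (hα ▸ S.qB) S.vB S.iB (ne _ S.hv')
      (ne _ h)

lemma point (n : ℤ) : ∃ τ ∈ S.O n ∩ AD S.f S.A S.B,
    ∃ m : {m : Marking S.B // Stable m}, τ = Quot.mk _ m ∧ m.1.k = 1 := by
  obtain ⟨w₀, α, hw, hα, hF⟩ := S.inFam
  obtain ⟨u, l, U, L, Λ, hD, hΛ, hu, hl⟩ := exists_twist S.q3 hF hw hα S.qB n
  have hφ : IsoRel S.A ((S.NL.trans l).trans S.NL.symm) := hl.conj S.NL (by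
    rw [S.hA']
    rintro x (rfl | rfl | rfl | rfl)
    · rw [NL_apply, nrm_fst S.dL]; exact Or.inr o0_mem
    · rw [NL_apply, nrm_snd S.dL]; exact Or.inr o1_mem
    · rw [NL_apply, nrm_trd]; exact Or.inr infty_mem
    · exact Or.inl S.pw_q.symm)
  have hψ : IsoRel S.A ((S.NU.trans u).trans S.NU.symm) := hu.conj S.NU (by
    rw [S.hA]
    rintro x (rfl | rfl | rfl | rfl)
    · rw [NU_apply, nrm_fst S.dU]; exact Or.inr o0_mem
    · rw [NU_apply, nrm_snd S.dU]; exact Or.inr o1_mem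
    · rw [NU_apply, nrm_trd]; exact Or.inr infty_mem
    · exact Or.inl S.pw_p.symm)
  have hm := S.mem_AD hφ hψ fun x => by
    simp only [Homeomorph.trans_apply]
    rw [Homeomorph.eq_symm_apply, ← G0_NU, ← G0_NU, ← hD.comm, Homeomorph.apply_symm_apply]
  obtain ⟨n', hn'⟩ := S.cover hm
  obtain ⟨ε, hε, H⟩ := id hn'
  have h3 := H _ (one_near (hh := hφ.mono (empty_subset _)) hε) _
    ⟨_, _, _, _, _, _, S.q3, hD, fun x => by
      rw [nm, hφ.fix S.nx, hφ.fix S.ny, hφ.fix S.nz, ← NL_apply]; simp, hΛ⟩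
  rw [← sub_mul, ← Int.cast_sub] at h3
  have h4 := eq_zero_of_exp (Complex.exp_int_mul_two_pi_mul_I _) (h3.trans one_lt_two)
  rw [mul_eq_zero, or_iff_left Complex.two_pi_I_ne_zero, Int.cast_eq_zero, sub_eq_zero] at h4
  subst h4
  exact ⟨_, ⟨hn', hm⟩, _, rfl, rfl⟩

lemma disjoint_O : Pairwise (Disjoint on S.O) := fun n n' h => by
  refine disjoint_left.2 ?_
  rintro ⟨m⟩ h1 h2
  exact h (Val.unique (m := m.1) h1 h2)

end Setup

theorem four_main {f : Sph → Sph} {A B : Set Sph} (hf : RatDeg f 2) (h4 : A.encard = 4)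
    (hA : f '' A = A) {c : Sph} (hc : Crit f c) (hcA : c ∉ A) (hAB : A ⊆ B)
    (hB : ∀ c, Crit f c → f c ∈ B) : ∃ O : ℤ → Set (AT B), (∀ n, IsOpen[bers B] (O n)) ∧
      Pairwise (Disjoint on O) ∧ AD f A B ⊆ ⋃ n, O n ∧ ∀ n, ∃ τ ∈ O n ∩ AD f A B,
        ∃ m : {m : Marking B // Stable m}, τ = Quot.mk _ m ∧ m.1.k = 1 := by
  obtain ⟨μ₀, ν₀, hμ₀, hν₀, e₀⟩ := hf.nf
  obtain ⟨c', hc', hne⟩ : ∃ c', Crit f c' ∧ ν₀ c' ≠ ν₀ c := by
    rcases (crit_iff e₀).1 hc with h | h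
    · exact ⟨ν₀.symm ∞, (crit_iff e₀).2 (Or.inr (by simp)), by
        rw [h, Homeomorph.apply_symm_apply]; exact o0_ne_infty.symm⟩
    · exact ⟨ν₀.symm o0, (crit_iff e₀).2 (Or.inl (by simp)), by
        rw [h, Homeomorph.apply_symm_apply]; exact o0_ne_infty⟩
  obtain ⟨μ, ν, hμ, hν, e, n1, n2⟩ := nf_swap hμ₀ hν₀ e₀ ((crit_iff e₀).1 hc')
    ((crit_iff e₀).1 hc) hne
  have v0 : μ o0 = f c := by rw [e, n2, sqS_o0]
  have vi : μ ∞ = f c' := by rw [e, n1, sqS_infty]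
  have w0 : μ o0 ∉ A := fun h => by
    obtain ⟨a, ha, h'⟩ := hA.ge h
    rw [e] at h'
    exact hcA (ν.injective ((sqS_eq_zero (μ.injective h')).trans n2.symm) ▸ ha)
  obtain ⟨t, ht, ht'⟩ : ∃ t ∈ A, ν t = ∞ ∨ μ ∞ ∉ A := by
    by_cases h : μ ∞ ∈ A
    · obtain ⟨a, ha, h'⟩ := hA.ge h
      rw [e] at h'
      exact ⟨a, ha, Or.inl (sqS_eq_infty (μ.injective h'))⟩
    · obtain ⟨a, ha⟩ : A.Nonempty := encard_pos.1 (by rw [h4]; norm_num)
      exact ⟨a, ha, Or.inr h⟩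
  obtain ⟨x, y, z, a1, a2, a3, a4, a5, a6, a7, a8, a9, a10, ρ, hρ, hcr⟩ :=
    exists_order ⟨μ, ν, hμ, hν, e⟩ h4 hA ht
  obtain ⟨Ob, d, d1, d2⟩ : ∃ (O : Orb) (d : ℂ), d ≠ 0 ∧ ∀ z, O.pw (z + d) = ρ (O.pw z) := by
    rcases hρ with rfl | rfl
    exacts [exists_sq, exists_hex]
  obtain ⟨q, hq⟩ := pw_surj (nrm (f x) (f y) (f z) (f t))
  let S : Setup := ⟨f, μ, ν, x, y, z, t, A, B, q, d, ρ, hμ, hν, e, hf, a1, a6, a2, a3, a4, a7, a8,
    a9, a5, a10, hAB, v0 ▸ hB c hc, w0, vi ▸ hB c' hc', ht', hq, d1, d2, hcr⟩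
  exact ⟨S.O, S.isOpen_O, S.disjoint_O, fun τ h => mem_iUnion.2 (S.cover h), S.point⟩

/-- A critical cycle of period four is an invariant set of four points. -/
lemma per4_hyp {f : Sph → Sph} {c c' : Sph} (h : Per4 f c c') :
    (range fun i : ℕ => f^[i] c).encard = 4 ∧
      f '' (range fun i : ℕ => f^[i] c) = (range fun i : ℕ => f^[i] c) ∧
      c' ∉ (range fun i : ℕ => f^[i] c) ∧
      ∀ x, Crit f x → f x ∈ insert (f c') (range fun i : ℕ => f^[i] c) := by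
  obtain ⟨h1, h2, h3, h4, h5, h6⟩ := h
  have hi := iterate_injOn_Iio_minimalPeriod (f := f) (x := c)
  have p4 := iterate_minimalPeriod (f := f) (x := c)
  rw [h5] at hi p4
  have hA : (range fun i : ℕ => f^[i] c) = (fun i : ℕ => f^[i] c) '' Iio 4 :=
    (image_subset_range _ _).antisymm' (by
      rintro _ ⟨i, rfl⟩
      exact ⟨i % 4, Nat.mod_lt _ (by norm_num), by
        simp only; rw [← h5, iterate_mod_minimalPeriod_eq]⟩)
  refine ⟨?_, Subset.antisymm ?_ ?_, ?_, fun x hx => ?_⟩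
  · rw [hA, hi.encard_image, ← Finset.coe_Iio, encard_coe_eq_coe_finsetCard, Nat.card_Iio]
    rfl
  · rintro _ ⟨_, ⟨i, rfl⟩, rfl⟩
    exact ⟨i + 1, iterate_succ_apply' _ _ _⟩
  · rintro _ ⟨i, rfl⟩
    refine ⟨_, ⟨i + 3, rfl⟩, ?_⟩
    simp only
    rw [← iterate_succ_apply' f, Nat.succ_eq_add_one, add_assoc, iterate_add_apply, p4]
  · rintro ⟨i, e⟩
    exact h6 ⟨i + 1, by simp only at e ⊢; rw [iterate_succ_apply', e]⟩
  · obtain ⟨μ₀, ν₀, hμ₀, hν₀, e₀⟩ := h1.nf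
    obtain ⟨μ, ν, -, -, e, n1, n2⟩ := nf_swap hμ₀ hν₀ e₀ ((crit_iff e₀).1 h2) ((crit_iff e₀).1 h3)
      (ν₀.injective.ne h4)
    rcases (crit_iff e).1 hx with h | h
    · exact Or.inl (congrArg f (ν.injective (h.trans n2.symm)))
    · exact Or.inr ⟨1, congrArg f (ν.injective (h.trans n1.symm)).symm⟩

/-- A set covered by disjoint open sets and meeting all of them has infinitely many components. -/
lemma infinite_components {X : Type} [TopologicalSpace X] {O : ℤ → Set X} (h1 : ∀ n, IsOpen (O n))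
    (h2 : Pairwise (Disjoint on O)) {T : Set X} (h3 : T ⊆ ⋃ n, O n) (h4 : ∀ n, (T ∩ O n).Nonempty) :
    ((fun τ => connectedComponentIn T τ) '' T).Infinite := by
  choose s s1 s2 using h4
  refine infinite_of_injective_forall_mem (f := fun n => connectedComponentIn T (s n))
    (fun n n' e => by_contra fun hn => ?_) fun n => ⟨s n, s1 n, rfl⟩
  obtain ⟨x, -, a3, a4⟩ := isPreconnected_connectedComponentIn (F := T) (x := s n) (O n)
    (⋃ j ≠ n, O j) (h1 n) (isOpen_biUnion fun n _ => h1 n)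
    (fun τ hτ => by
      obtain ⟨j, hj⟩ := mem_iUnion.1 (h3 (connectedComponentIn_subset _ _ hτ))
      by_cases e : j = n
      · exact Or.inl (e ▸ hj)
      · exact Or.inr (mem_biUnion e hj)) ⟨s n, mem_connectedComponentIn (s1 n), s2 n⟩
    ⟨s n', by
      simp only at e
      rw [e]
      exact mem_connectedComponentIn (s1 n'), mem_biUnion (Ne.symm hn) (s2 n')⟩
  obtain ⟨j, a5, a6⟩ := mem_iUnion₂.1 a4
  exact disjoint_left.1 (h2 a5) a6 a3

end

end Pool.Agent.Lib.MP_21db80_an.Gen
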