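import Pool.Agent.Lib.MP_21db80_an.G.GLift

/-!
The winding invariant for an orbifold covering.
-/

namespace Pool.Agent.Lib.MP_21db80_an.Gen

open OnePoint Set Topology Function Filter Metric unitInterval

noncomputable section

variable [Orb]

/-- The lifted graph of `G` with the diagonal removed. -/
def Zg (G : Sph → Sph) : Set (ℂ × ℂ) := {w | G (pw w.1) = pw w.2 ∧ w.1 ≠ w.2}

/-- A deformation from `G` to `G'` together with lifts and a normalised logarithm. -/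
structure Data (G G' : Sph → Sph) (u l : Sph ≃ₜ Sph) (U L : ℂ ≃ₜ ℂ) (Λ : ℂ × ℂ → ℂ) : Prop where
  hU : EqLift u U
  hL : EqLift l L
  comm : ∀ x, G' (u x) = l (G x)
  cont : ContinuousOn Λ (Zg G)
  ex : ∀ w ∈ Zg G, Complex.exp (Λ w) * (w.1 - w.2) = U w.1 - L w.2
  far : ∀ ε > 0, ∃ R : ℝ, ∀ w ∈ Zg G, R < ‖w.1 - w.2‖ → ‖Λ w‖ < ε
  per : ∀ c ∈ Lam, ∀ w ∈ Zg G, Λ (w.1 + c, w.2 + c) = Λ w

lemma Zg_add {G : Sph → Sph} {w : ℂ × ℂ} (hw : w ∈ Zg G) {c : ℂ} (hc : c ∈ Lam) :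
    (w.1 + c, w.2 + c) ∈ Zg G :=
  ⟨by simp only [pw_add hc]; exact hw.1, fun e => hw.2 (add_right_cancel e)⟩

lemma fam_bound {U : I → ℂ → ℂ} (hc : Continuous fun p : I × ℂ => U p.1 p.2)
    (h : ∀ t, ∀ l ∈ Lam, ∀ z, U t (z + l) = U t z + l) : ∃ C, ∀ t z, ‖U t z - z‖ ≤ C := by
  obtain ⟨C, hC⟩ := (isCompact_univ.prod (isCompact_closedBall (0 : ℂ) 1)).exists_bound_of_continuousOn
    (f := fun p : I × ℂ => U p.1 p.2 - p.2) (hc.sub continuous_snd).continuousOn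
  refine ⟨C, fun t z => ?_⟩
  obtain ⟨l, hl, h1⟩ := exists_Lam_near z
  have h2 := h t l hl (z - l)
  rw [sub_add_cancel] at h2
  have := hC (t, z - l) ⟨trivial, by simpa using h1⟩
  rwa [h2, show U t (z - l) + l - z = U t (z - l) - (z - l) by ring]

lemma EqLift.bound {h : Sph → Sph} {H : ℂ ≃ₜ ℂ} (a : EqLift h H) : ∃ C, ∀ z, ‖H z - z‖ ≤ C := by
  obtain ⟨C, hC⟩ := fam_bound (U := fun _ => H) (by fun_prop) fun _ l hl z => a.add hl z
  exact ⟨C, hC 0⟩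

lemma lift_ne {G : Sph → Sph} (hG : Q3 G) {u l : Sph → Sph} {U L : ℂ ≃ₜ ℂ} (hU : EqLift u U)
    (hL : EqLift l L) {p q : ℂ} (e : G (pw p) = pw q) (h : U p ≠ L q) : p ≠ q := by
  rintro rfl
  exact h (by rw [hU.fix _ (hG.fix e), hL.fix _ (hG.fix e)])

namespace Data

variable {G G' G'' : Sph → Sph} {u l u' l' : Sph ≃ₜ Sph} {U L U' L' : ℂ ≃ₜ ℂ} {Λ Λ' : ℂ × ℂ → ℂ}

lemma maps (h : Data G G' u l U L Λ) {w : ℂ × ℂ} (hw : w ∈ Zg G) : (U w.1, L w.2) ∈ Zg G' :=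
  ⟨by simp only [h.hU.lifts, h.hL.lifts, h.comm, hw.1], fun e =>
    mul_ne_zero (Complex.exp_ne_zero _) (sub_ne_zero.2 hw.2) ((h.ex w hw).trans (sub_eq_zero.2 e))⟩

lemma graph (h : Data G G' u l U L Λ) {p q : ℂ} (e : G' (pw (U p)) = pw (L q)) :
    G (pw p) = pw q := l.injective (by rwa [h.hU.lifts, h.hL.lifts, h.comm] at e)

lemma maps_symm (hG : Q3 G) (h : Data G G' u l U L Λ) {w : ℂ × ℂ} (hw : w ∈ Zg G') :
    (U.symm w.1, L.symm w.2) ∈ Zg G := by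
  have e : G (pw (U.symm w.1)) = pw (L.symm w.2) := h.graph (by simpa using hw.1)
  exact ⟨e, lift_ne hG h.hU h.hL e (by simpa using hw.2)⟩

lemma refl (G : Sph → Sph) : Data G G (.refl _) (.refl _) (.refl _) (.refl _) fun _ => 0 :=
  ⟨eqLift_refl, eqLift_refl, fun _ => rfl, continuousOn_const, fun _ _ => by simp,
    fun ε hε => ⟨0, fun _ _ _ => by simpa using hε⟩, fun _ _ _ _ => rfl⟩

lemma trans (h : Data G G' u l U L Λ) (k : Data G' G'' u' l' U' L' Λ') :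
    Data G G'' (u.trans u') (l.trans l') (U.trans U') (L.trans L')
      fun w => Λ w + Λ' (U w.1, L w.2) := by
  refine ⟨h.hU.trans k.hU, h.hL.trans k.hL, fun x => by simp [k.comm, h.comm],
    h.cont.add (k.cont.comp (by fun_prop) fun w hw => h.maps hw), fun w hw => ?_, fun ε hε => ?_,
    fun c hc w hw => ?_⟩
  · have := k.ex _ (h.maps hw)
    simp only [Homeomorph.trans_apply, Complex.exp_add] at this ⊢
    rw [← this, ← h.ex w hw]; ring
  · obtain ⟨R, hR⟩ := h.far (ε / 2) (by positivity)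
    obtain ⟨R', hR'⟩ := k.far (ε / 2) (by positivity)
    obtain ⟨C, hC⟩ := h.hU.bound
    obtain ⟨D, hD⟩ := h.hL.bound
    refine ⟨max R (R' + C + D), fun w hw h1 => (norm_add_le _ _).trans_lt ?_⟩
    have a1 := hR w hw ((le_max_left _ _).trans_lt h1)
    have a2 := hR' _ (h.maps hw) (by
      linarith [norm_sub_ge (hC w.1) (hD w.2), (le_max_right _ _).trans_lt h1])
    linarith
  · simp only
    rw [h.per c hc w hw, h.hU.add hc, h.hL.add hc]
    exact congrArg _ (k.per c hc _ (h.maps hw))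

lemma symm (hG : Q3 G) (h : Data G G' u l U L Λ) :
    Data G' G u.symm l.symm U.symm L.symm fun w => -Λ (U.symm w.1, L.symm w.2) := by
  refine ⟨h.hU.symm, h.hL.symm, fun x => by rw [Homeomorph.eq_symm_apply, ← h.comm]; simp,
    (h.cont.comp (by fun_prop) fun w hw => h.maps_symm hG hw).neg, fun w hw => ?_, fun ε hε => ?_,
    fun c hc w hw => ?_⟩
  · have := h.ex _ (h.maps_symm hG hw)
    simp only [Homeomorph.apply_symm_apply] at this
    rw [← this, Complex.exp_neg, inv_mul_cancel_left₀ (Complex.exp_ne_zero _)]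
  · obtain ⟨R, hR⟩ := h.far ε hε
    obtain ⟨C, hC⟩ := h.hU.symm.bound
    obtain ⟨D, hD⟩ := h.hL.symm.bound
    refine ⟨R + C + D, fun w hw h1 => ?_⟩
    rw [norm_neg]
    exact hR _ (h.maps_symm hG hw) (by linarith [norm_sub_ge (hC w.1) (hD w.2)])
  · simp only
    rw [h.hU.symm.add hc, h.hL.symm.add hc]
    exact congrArg _ (h.per c hc _ (h.maps_symm hG hw))

end Data

lemma q3_anS {G : Sph → Sph} (h : Q3 G) (z : ℂ) : AnS (fun z => G (pw z)) z := by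
  obtain ⟨μ, ν, hμ, hν, e⟩ := h.1
  simp only [e]
  exact ((anS_pw z).mob hν).sq.mob hμ

lemma q3_no_max {G : Sph → Sph} (h : Q3 G) {p q : ℂ} (e : G (pw p) = pw q) :
    ¬ ∀ᶠ w : ℂ × ℂ in 𝓝 (p, q), G (pw w.1) = pw w.2 → ‖w.1 - w.2‖ ≤ ‖p - q‖ := by
  intro hm
  have h1 := no_local_max (q3_anS h) anS_pw (fun y => by
    by_cases hy : y = ∞
    · obtain ⟨z, hz⟩ := pw_surj o0
      exact ⟨z, by rw [hz, h.2 _ o0_mem, hy]; exact o0_ne_infty⟩
    · exact ⟨0, by rw [pw_of_mem (zero_mem _), h.2 _ infty_mem]; exact Ne.symm hy⟩) (fun y => by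
    obtain ⟨x, hx, -⟩ := exists_third y y
    obtain ⟨z, rfl⟩ := pw_surj x
    exact ⟨z, hx⟩) e hm
  have h2 := h1 0
  rw [pw_of_mem (zero_mem _), h.2 _ infty_mem, eq_comm, pw_eq_infty] at h2
  obtain ⟨x, hx⟩ := exists_ne_of_finite finite_B3
  obtain ⟨z, rfl⟩ := pw_surj x
  refine hx (h.fix ?_)
  rw [h1, ← pw_add h2 z]; congr 1; ring

/-- Comparison of the logarithms of two close deformations. -/
theorem Data.cmp {G G' G'' : Sph → Sph} {u l u' l' : Sph ≃ₜ Sph} {U L U' L' : ℂ ≃ₜ ℂ}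
    {Λ Λ' : ℂ × ℂ → ℂ} (hG : Q3 G) (hG' : Q3 G') (h : Data G G' u l U L Λ)
    (k : Data G G'' u' l' U' L' Λ') {η : ℝ} (e1 : ∀ z, ‖U' z - U z‖ ≤ η)
    (e2 : ∀ z, ‖L' z - L z‖ ≤ η) {w₀ : ℂ × ℂ} (hw₀ : w₀ ∈ Zg G) (h4 : 4 * η < ‖U w₀.1 - L w₀.2‖) :
    Λ' w₀ - Λ w₀ = Complex.log ((U' w₀.1 - L' w₀.2) / (U w₀.1 - L w₀.2)) := by
  have hη : 0 ≤ η := (norm_nonneg _).trans (e1 0)
  let V : ℂ × ℂ → ℂ := fun w => U w.1 - L w.2
  let V' : ℂ × ℂ → ℂ := fun w => U' w.1 - L' w.2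
  let D : ℂ × ℂ → ℂ := fun w => Λ' w - Λ w - Complex.log (V' w / V w)
  let S : Set (ℂ × ℂ) := {w | G (pw w.1) = pw w.2 ∧ 4 * η < ‖V w‖}
  have Vc : Continuous V := by fun_prop
  have Vc' : Continuous V' := by fun_prop
  have hSZ : S ⊆ Zg G := fun w hw => ⟨hw.1, lift_ne hG h.hU h.hL hw.1 (sub_ne_zero.1
    (norm_pos_iff.1 (show 0 < ‖V w‖ by linarith [hw.2])))⟩
  have hr : ∀ w ∈ S, V' w / V w ∈ Complex.slitPlane ∧ ‖Complex.log (V' w / V w)‖ ≤ 3 / 2 * (1 / 2) := by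
    intro w hw
    refine log_small (ratio_small (by linarith [hw.2]) ?_) le_rfl
    have := norm_sub_le (U' w.1 - U w.1) (L' w.2 - L w.2)
    rw [show U' w.1 - U w.1 - (L' w.2 - L w.2) = V' w - V w by simp only [V, V']; ring] at this
    linarith [e1 w.1, e2 w.2, hw.2]
  have hV : ∀ w ∈ S, V w ≠ 0 := fun w hw => norm_pos_iff.1 (by linarith [hw.2])
  have Dc : ContinuousOn D S := ((k.cont.mono hSZ).sub (h.cont.mono hSZ)).sub
    ((Vc'.continuousOn.div Vc.continuousOn hV).clog fun w hw => (hr w hw).1)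
  have De : ∀ w ∈ S, Complex.exp (D w) = 1 := fun w hw => by
    have a1 := Complex.slitPlane_ne_zero (hr w hw).1
    have a2 := sub_ne_zero.2 (hSZ hw).2
    simp only [D]
    rw [Complex.exp_sub, Complex.exp_sub, Complex.exp_log a1, div_eq_one_iff_eq a1]
    simp only [V, V']
    rw [← h.ex w (hSZ hw), ← k.ex w (hSZ hw), mul_div_mul_right _ _ a2]
  obtain ⟨R, hR⟩ : ∃ R : ℝ, ∀ w ∈ S, R < ‖w.1 - w.2‖ → D w = 0 := by
    obtain ⟨R, hR⟩ := h.far (1 / 2) (by norm_num)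
    obtain ⟨R', hR'⟩ := k.far (1 / 2) (by norm_num)
    refine ⟨max R R', fun w hw h1 => eq_zero_of_exp (De w hw) ?_⟩
    have a1 := hR w (hSZ hw) ((le_max_left _ _).trans_lt h1)
    have a2 := hR' w (hSZ hw) ((le_max_right _ _).trans_lt h1)
    have a3 := norm_sub_le (Λ' w - Λ w) (Complex.log (V' w / V w))
    linarith [norm_sub_le (Λ' w) (Λ w), (hr w hw).2]
  by_contra hne
  let T : Set (ℂ × ℂ) := {w | G (pw w.1) = pw w.2 ∧ ‖V w₀‖ ≤ ‖V w‖ ∧ ‖w.1‖ ≤ 1 ∧ ‖w.1 - w.2‖ ≤ R}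
  have hTS : T ⊆ S := fun w hw => ⟨hw.1, h4.trans_le hw.2.1⟩
  have hTc : IsClosed T := (isClosed_eq (hG.1.continuous.comp (continuous_pw.comp continuous_fst))
    (continuous_pw.comp continuous_snd)).inter ((isClosed_le continuous_const Vc.norm).inter
      ((isClosed_le continuous_fst.norm continuous_const).inter
        (isClosed_le (continuous_fst.sub continuous_snd).norm continuous_const)))
  have hT : IsCompact T := ((isCompact_closedBall (0 : ℂ) 1).prod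
    (isCompact_closedBall (0 : ℂ) (1 + R))).of_isClosed_subset hTc fun w hw =>
      ⟨by simpa using hw.2.2.1, by
        have := norm_sub_le w.1 (w.1 - w.2)
        rw [sub_sub_cancel] at this
        rw [mem_closedBall_zero_iff]; linarith [hw.2.2.1, hw.2.2.2]⟩
  have hB : IsCompact (T ∩ (fun w => ‖D w‖) ⁻¹' Ici 2) := hT.of_isClosed_subset
    ((Dc.mono hTS).norm.preimage_isClosed_of_isClosed hTc isClosed_Ici) inter_subset_left
  have red : ∀ w ∈ S, ‖V w₀‖ ≤ ‖V w‖ → D w ≠ 0 →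
      ∃ w' ∈ T ∩ (fun w => ‖D w‖) ⁻¹' Ici 2, V w' = V w := by
    intro w hw a1 a2
    obtain ⟨c, hc, a3⟩ := exists_Lam_near w.1
    have b1 : V (w.1 + -c, w.2 + -c) = V w := by
      simp only [V]; rw [h.hU.add (neg_mem hc), h.hL.add (neg_mem hc)]; ring
    have b2 : V' (w.1 + -c, w.2 + -c) = V' w := by
      simp only [V']; rw [k.hU.add (neg_mem hc), k.hL.add (neg_mem hc)]; ring
    have b3 : D (w.1 + -c, w.2 + -c) = D w := by
      simp only [D]; rw [b1, b2, h.per _ (neg_mem hc) w (hSZ hw), k.per _ (neg_mem hc) w (hSZ hw)]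
    refine ⟨_, ⟨⟨(Zg_add (hSZ hw) (neg_mem hc)).1, b1 ▸ a1, by simpa [sub_eq_add_neg] using a3, ?_⟩,
      ?_⟩, b1⟩
    · simp only [add_sub_add_right_eq_sub]
      by_contra a4
      exact a2 (hR w hw (not_le.1 a4))
    · rw [mem_preimage, b3, mem_Ici]
      by_contra a4
      exact a2 (eq_zero_of_exp (De w hw) (not_le.1 a4))
  obtain ⟨w₁, hw₁, -⟩ := red w₀ ⟨hw₀.1, h4⟩ le_rfl (sub_ne_zero.2 hne)
  obtain ⟨w₂, hw₂, hmax⟩ := hB.exists_isMaxOn ⟨w₁, hw₁⟩ Vc.norm.continuousOn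
  refine q3_no_max hG' (h.maps (hSZ (hTS hw₂.1))).1 ?_
  have c1 : ∀ᶠ w in 𝓝 w₂, w ∈ S → D w ≠ 0 := by
    rw [← eventually_nhdsWithin_iff]
    refine (Dc w₂ (hTS hw₂.1)).eventually_ne fun e => ?_
    have := hw₂.2
    rw [mem_preimage, e, mem_Ici] at this
    norm_num at this
  have c2 : Tendsto (fun w : ℂ × ℂ => (U.symm w.1, L.symm w.2)) (𝓝 (U w₂.1, L w₂.2)) (𝓝 w₂) :=
    Continuous.tendsto' (by fun_prop) _ _ (by simp)
  filter_upwards [c2.eventually c1] with w a1 a2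
  by_contra a3
  have a4 : V (U.symm w.1, L.symm w.2) = w.1 - w.2 := by simp [V]
  have a5 : ‖V w₀‖ ≤ ‖V (U.symm w.1, L.symm w.2)‖ := by
    rw [a4]; exact hw₂.1.2.1.trans (not_le.1 a3).le
  have a6 : (U.symm w.1, L.symm w.2) ∈ S := ⟨h.graph (by simpa using a2), h4.trans_le a5⟩
  obtain ⟨w', b1, b2⟩ := red _ a6 a5 (a1 a6)
  have := hmax b1
  simp only [mem_ofPred_eq, b2, a4] at this
  exact a3 this

/-- Deformations coming from isotopies. -/
theorem data_of_isotopy {u l : I → Sph ≃ₜ Sph} {G : I → Sph → Sph} (hu : CFam u) (hl : CFam l)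
    (u0 : ∀ x, u 0 x = x) (l0 : ∀ x, l 0 x = x) (uf : ∀ t, ∀ x ∈ B3, u t x = x)
    (lf : ∀ t, ∀ x ∈ B3, l t x = x) (hG : ∀ t, Q3 (G t)) (hc : ∀ t x, G t (u t x) = l t (G 0 x)) :
    ∃ U L Λ, Data (G 0) (G 1) (u 1) (l 1) U L Λ ∧ ∀ w ∈ Zg (G 0), ∀ a b c : I → ℂ,
      Continuous a → Continuous b → Continuous c → a 0 = w.1 → b 0 = w.2 → c 0 = 0 →
      pw w.1 ∉ B3 → pw w.2 ∉ B3 → (∀ t, pw (a t) = u t (pw w.1)) → (∀ t, pw (b t) = l t (pw w.2)) →
      (∀ t, Complex.exp (c t) * (w.1 - w.2) = a t - b t) →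
        U w.1 = a 1 ∧ L w.2 = b 1 ∧ Λ w = c 1 := by
  classical
  obtain ⟨U, U1, U2, U3⟩ := lift_isotopy hu u0 uf
  obtain ⟨L, L1, L2, L3⟩ := lift_isotopy hl l0 lf
  have hne : ∀ t, ∀ w ∈ Zg (G 0), U t w.1 - L t w.2 ≠ 0 := fun t w hw => sub_ne_zero.2 fun e => by
    have a1 : G t (pw (U t w.1)) = pw (U t w.1) := by
      rw [(U3 t).lifts, hc, hw.1, ← (L3 t).lifts, ← e, (U3 t).lifts]
    have a2 := (hG t).fix a1
    have a3 : pw w.1 ∈ B3 := by
      by_contra a; exact not_mem_of_fix (uf t) a ((U3 t).lifts _ ▸ a2)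
    have a4 : pw w.2 ∈ B3 := by
      by_contra a; exact not_mem_of_fix (lf t) a ((L3 t).lifts _ ▸ e ▸ a2)
    rw [(U3 t).fix _ a3, (L3 t).fix _ a4] at e
    exact hw.2 e
  have hg : Continuous fun p : I × Zg (G 0) =>
      (U p.1 p.2.1.1 - L p.1 p.2.1.2) / (p.2.1.1 - p.2.1.2) :=
    ((U1.comp (f := fun p : I × Zg (G 0) => (p.1, p.2.1.1)) (by fun_prop)).sub
      (L1.comp (f := fun p : I × Zg (G 0) => (p.1, p.2.1.2)) (by fun_prop))).div (by fun_prop)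
        fun p => sub_ne_zero.2 p.2.2.2
  obtain ⟨M, M1, M2, M3⟩ := lift_exp hg (fun p => div_ne_zero (hne _ _ p.2.2)
    (sub_ne_zero.2 p.2.2.2)) (L₀ := fun _ => 0) continuous_const fun a => by
      simp only [U2, L2, Complex.exp_zero]; rw [div_self (sub_ne_zero.2 a.2.2)]
  let Λ : ℂ × ℂ → ℂ := fun w => if h : w ∈ Zg (G 0) then M (1, ⟨w, h⟩) else 0
  have hΛ : ∀ w (h : w ∈ Zg (G 0)), Λ w = M (1, ⟨w, h⟩) := fun w h => dif_pos h
  have key : ∀ w (h : w ∈ Zg (G 0)) (c : I → ℂ), Continuous c → c 0 = 0 →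
      (∀ t, Complex.exp (c t) = (U t w.1 - L t w.2) / (w.1 - w.2)) → Λ w = c 1 := by
    intro w h c c1 c2 c3
    rw [hΛ w h]
    exact congrFun (exp_lift_unique (f := fun t => M (t, ⟨w, h⟩)) (by fun_prop) c1
      (fun t => by rw [M2, c3]) (y₀ := 0) (by rw [M3, c2])) 1
  refine ⟨U 1, L 1, Λ, ⟨U3 1, L3 1, hc 1, ?_, fun w hw => ?_, fun ε hε => ?_, fun c hc w hw => ?_⟩,
    fun w hw a b c a1 b1 c1 a2 b2 c2 h1 h2 a3 b3 c3 => ?_⟩
  · rw [continuousOn_iff_continuous_domRestrict]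
    have : (Zg (G 0)).domRestrict Λ = fun w => M (1, w) := funext fun w => hΛ w w.2
    rw [this]; fun_prop
  · rw [hΛ w hw, M2, div_mul_cancel₀ _ (sub_ne_zero.2 hw.2)]
  · obtain ⟨C, hC⟩ := fam_bound U1 fun t c hc z => (U3 t).add hc z
    obtain ⟨D, hD⟩ := fam_bound L1 fun t c hc z => (L3 t).add hc z
    set s := min (1 / 2) (ε / 2) with hs
    have s0 : 0 < s := by positivity
    refine ⟨(C + D) / s, fun w hw h1 => ?_⟩
    have a1 : ∀ t, ‖(U t w.1 - L t w.2) / (w.1 - w.2) - 1‖ ≤ s := fun t => by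
      refine ratio_small (norm_pos_iff.2 (sub_ne_zero.2 hw.2)) ?_
      have := norm_sub_le (U t w.1 - w.1) (L t w.2 - w.2)
      rw [show U t w.1 - w.1 - (L t w.2 - w.2) = U t w.1 - L t w.2 - (w.1 - w.2) by ring] at this
      rw [div_lt_iff₀ s0] at h1
      linarith [hC t w.1, hD t w.2]
    have a2 := fun t => log_small (a1 t) (min_le_left _ _)
    rw [key w hw (fun t => Complex.log ((U t w.1 - L t w.2) / (w.1 - w.2)))
      ((hg.comp (f := fun t : I => (t, (⟨w, hw⟩ : Zg (G 0)))) (by fun_prop)).clog fun t => (a2 t).1)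
      (by simp only [U2, L2]; rw [div_self (sub_ne_zero.2 hw.2), Complex.log_one])
      fun t => Complex.exp_log (Complex.slitPlane_ne_zero (a2 t).1)]
    linarith [(a2 1).2, min_le_right (1 / 2) (ε / 2)]
  · rw [hΛ w hw]
    refine key _ (Zg_add hw hc) (fun t => M (t, ⟨w, hw⟩)) (by fun_prop) (M3 _) fun t => ?_
    rw [M2, (U3 t).add hc, (L3 t).add hc]
    simp
  · have a4 := path_unique (g := fun t => U t w.1) (g' := a) (by fun_prop) a1
      (fun t => by rw [(U3 t).lifts, a3]) (fun t => by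
        rw [(U3 t).lifts]; exact not_mem_of_fix (uf t) h1) (by rw [U2, a2])
    have b4 := path_unique (g := fun t => L t w.2) (g' := b) (by fun_prop) b1
      (fun t => by rw [(L3 t).lifts, b3]) (fun t => by
        rw [(L3 t).lifts]; exact not_mem_of_fix (lf t) h2) (by rw [L2, b2])
    exact ⟨a4 1, b4 1, key w hw c c1 c2 fun t => by
      rw [a4, b4, ← c3, mul_div_cancel_right₀ _ (sub_ne_zero.2 hw.2)]⟩

end

end Pool.Agent.Lib.MP_21db80_an.Gen
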