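import Pool.Agent.Lib.MP_21db80_an.G.Cov

/-!
Lifting isotopies through an orbifold covering.
-/

namespace Pool.Agent.Lib.MP_21db80_an.Gen

open OnePoint Set Topology Function Filter Metric unitInterval

noncomputable section

variable [Orb]

/-- Equivariant lifts. -/
structure EqLift (h : Sph → Sph) (H : ℂ ≃ₜ ℂ) : Prop where
  lifts : ∀ z, pw (H z) = h (pw z)
  eqv : ∀ k l z : ℂ, k ^ Orb.N = 1 → l ∈ Lam → H (k * z + l) = k * H z + l
  fix : ∀ z, pw z ∈ B3 → H z = z

lemma eqLift_refl : EqLift id (Homeomorph.refl ℂ) := ⟨fun _ => rfl, fun _ _ _ _ _ => rfl,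
  fun _ _ => rfl⟩

lemma EqLift.trans {h k : Sph → Sph} {H K : ℂ ≃ₜ ℂ} (a : EqLift h H) (b : EqLift k K) :
    EqLift (k ∘ h) (H.trans K) :=
  ⟨fun z => by simp [a.lifts, b.lifts], fun c l z h1 h2 => by simp [a.eqv c l _ h1 h2,
    b.eqv c l _ h1 h2], fun z hz => by simp [a.fix z hz, b.fix z hz]⟩

lemma EqLift.symm {h : Sph ≃ₜ Sph} {H : ℂ ≃ₜ ℂ} (a : EqLift h H) : EqLift h.symm H.symm :=
  ⟨fun z => by rw [Homeomorph.eq_symm_apply, ← a.lifts]; simp, fun c l z h1 h2 => by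
    rw [Homeomorph.symm_apply_eq, a.eqv c l _ h1 h2]; simp,
    fun z hz => by rw [Homeomorph.symm_apply_eq, a.fix z hz]⟩

lemma EqLift.congr {h k : Sph → Sph} {H : ℂ ≃ₜ ℂ} (a : EqLift h H) (e : ∀ x, h x = k x) :
    EqLift k H := funext e ▸ a

lemma EqLift.add {h : Sph → Sph} {H : ℂ ≃ₜ ℂ} (a : EqLift h H) {l : ℂ} (hl : l ∈ Lam) (z : ℂ) :
    H (z + l) = H z + l := by simpa using a.eqv 1 l z (by simp) hl

lemma path_unique {g g' : I → ℂ} (hg : Continuous g) (hg' : Continuous g')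
    (e : ∀ t, pw (g t) = pw (g' t)) (hB : ∀ t, pw (g t) ∉ B3) (h0 : g 0 = g' 0) (t : I) :
    g t = g' t := by
  have := cov_pw.isCoveringMap_restrictPreimage.eq_of_comp_eq
    (g₁ := fun t => (⟨g t, hB t⟩ : pw ⁻¹' B3ᶜ)) (g₂ := fun t => ⟨g' t, fun h => hB t (e t ▸ h)⟩)
    (hg.subtype_mk _) (hg'.subtype_mk _) (funext fun t => Subtype.ext (e t)) 0 (Subtype.ext h0)
  exact congrArg Subtype.val (congrFun this t)

open Classical in
lemma lift_fun {H : I → Sph ≃ₜ Sph} (hc : CFam H) (h0 : ∀ x, H 0 x = x)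
    (hf : ∀ t, ∀ x ∈ B3, H t x = x) : ∃ K : I × ℂ → ℂ, Continuous K ∧
      (∀ t z, pw (K (t, z)) = H t (pw z)) ∧ (∀ z, K (0, z) = z) ∧
        ∀ t z, pw z ∈ B3 → K (t, z) = z := by
  have cov := cov_pw.isCoveringMap_restrictPreimage
  let Hh : C(I × (pw ⁻¹' B3ᶜ), (B3ᶜ : Set Sph)) :=
    ⟨fun p => ⟨H p.1 (pw p.2), not_mem_of_fix (hf _) p.2.2⟩,
      (hc.cont continuous_fst (continuous_pw.comp (by fun_prop))).subtype_mk _⟩
  have hh : ∀ a, Hh (0, a) = B3ᶜ.restrictPreimage pw (ContinuousMap.id _ a) := fun a =>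
    Subtype.ext (h0 _)
  let K₀ := cov.liftHomotopy Hh (ContinuousMap.id _) hh
  let K : I × ℂ → ℂ := fun p => if h : pw p.2 ∈ B3 then p.2 else K₀ (p.1, ⟨p.2, h⟩)
  have k1 : ∀ t z, pw z ∈ B3 → K (t, z) = z := fun t z h => dif_pos h
  have k2 : ∀ (t : I) (z : pw ⁻¹' B3ᶜ), K (t, z) = K₀ (t, z) := fun t z => dif_neg z.2
  have k3 : ∀ t z, pw (K (t, z)) = H t (pw z) := fun t z => by
    by_cases h : pw z ∈ B3
    · rw [k1 t z h, hf t _ h]
    · rw [k2 t ⟨z, h⟩]
      exact congrArg Subtype.val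
        (congrFun (cov.liftHomotopy_lifts Hh (ContinuousMap.id _) hh) (t, ⟨z, h⟩))
  have k4 : ∀ z, K (0, z) = z := fun z => by
    by_cases h : pw z ∈ B3
    · exact k1 0 z h
    · rw [k2 0 ⟨z, h⟩, cov.liftHomotopy_zero]; rfl
  have k5 : ∀ p : I × ℂ, pw p.2 ∉ B3 → ContinuousAt K p := fun p hp =>
    continuousAt_of_open (finite_B3.isClosed.isOpen_compl.preimage continuous_pw) (by
      simp only [k2]; exact continuous_subtype_val.comp K₀.continuous) hp
  refine ⟨K, continuous_iff_continuousAt.2 fun p => ?_, k3, k4, k1⟩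
  by_cases hp : pw p.2 ∈ B3
  swap
  · exact k5 p hp
  obtain ⟨t₀, b⟩ := p
  rw [ContinuousAt, k1 t₀ b hp, Metric.tendsto_nhds]
  intro η hη
  obtain ⟨δ, hδ, hδ'⟩ := orb_discrete b
  obtain ⟨ε, hε, hε'⟩ := pw_unif (η := min η (δ / 2)) (by positivity)
  have h1 : ∀ᶠ z in 𝓝 b, ∀ t ∈ (univ : Set I), dist (pw b) (H t (pw z)) < ε := by
    refine isCompact_univ.eventually_forall_of_forall_eventually fun t _ => ?_
    have : Continuous fun p : ℂ × I => dist (pw b) (H p.2 (pw p.1)) :=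
      continuous_const.dist (hc.cont continuous_snd (continuous_pw.comp continuous_fst))
    exact this.continuousAt.eventually_lt continuousAt_const (by simpa [hf t _ hp] using hε)
  have h2 : ∀ᶠ z in 𝓝 b, dist z b < min η (δ / 2) := ball_mem_nhds b (by positivity)
  filter_upwards [continuous_snd.continuousAt.eventually (h1.and h2)]
  rintro ⟨t, z⟩ ⟨a1, a2⟩
  refine lt_of_lt_of_le ?_ (min_le_left η (δ / 2))
  by_cases hz : pw z ∈ B3
  · rwa [k1 t z hz]
  have hcz : Continuous fun t => K (t, z) := continuous_iff_continuousAt.2 fun t =>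
    (k5 (t, z) hz).comp_of_eq (by fun_prop) rfl
  refine isPreconnected_univ.gt_of_ne (f := fun t => dist (K (t, z)) b)
    (hcz.dist continuous_const).continuousOn (fun s _ => ?_) ⟨0, trivial, by rwa [k4]⟩ trivial
  obtain ⟨k, l, b1, b2, b3⟩ := hε' b (K (s, z)) (by rw [k3]; exact a1 s trivial)
  by_cases b4 : ‖k * b + l - b‖ < δ
  · rw [hδ' k l b1 b2 b4, ← dist_eq_norm] at b3
    exact b3.ne
  · refine ne_of_gt ?_
    have := norm_sub_le (K (s, z) - b) (K (s, z) - (k * b + l))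
    rw [sub_sub_sub_cancel_left] at this
    rw [dist_eq_norm]
    linarith [min_le_right η (δ / 2)]

/-- Lifting an isotopy. -/
theorem lift_isotopy {H : I → Sph ≃ₜ Sph} (hc : CFam H) (h0 : ∀ x, H 0 x = x)
    (hf : ∀ t, ∀ x ∈ B3, H t x = x) : ∃ L : I → ℂ ≃ₜ ℂ, Continuous (fun p : I × ℂ => L p.1 p.2) ∧
      (∀ z, L 0 z = z) ∧ ∀ t, EqLift (H t) (L t) := by
  have h0' : ∀ x, (H 0).symm x = x := fun x => by rw [Homeomorph.symm_apply_eq, h0]
  have hf' : ∀ t, ∀ x ∈ B3, (H t).symm x = x := fun t x hx => by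
    rw [Homeomorph.symm_apply_eq, hf t x hx]
  obtain ⟨K, k1, k2, k3, k4⟩ := lift_fun hc h0 hf
  obtain ⟨J, j1, j2, j3, j4⟩ := lift_fun hc.symm h0' hf'
  refine ⟨fun t => ⟨⟨fun z => K (t, z), fun z => J (t, z), fun z => ?_, fun z => ?_⟩,
    by fun_prop, by fun_prop⟩, k1, k3, fun t => ⟨k2 t, fun k l z h1 h2 => ?_, k4 t⟩⟩
  · by_cases hz : pw z ∈ B3
    · simp only [k4 t z hz, j4 t z hz]
    · exact (path_unique (g := fun _ => z) (g' := fun t => J (t, K (t, z))) continuous_const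
        (by fun_prop) (fun t => by simp [j2, k2]) (fun _ => hz) (by rw [k3, j3]) t).symm
  · by_cases hz : pw z ∈ B3
    · simp only [k4 t z hz, j4 t z hz]
    · exact (path_unique (g := fun _ => z) (g' := fun t => K (t, J (t, z))) continuous_const
        (by fun_prop) (fun t => by simp [j2, k2]) (fun _ => hz) (by rw [k3, j3]) t).symm
  · change K (t, k * z + l) = k * K (t, z) + l
    by_cases hz : pw z ∈ B3
    · rw [k4 t z hz, k4 t _ (by rwa [pw_orb h1 h2])]
    · exact path_unique (g := fun t => K (t, k * z + l)) (g' := fun t => k * K (t, z) + l)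
        (by fun_prop) (by fun_prop) (fun t => by rw [k2, pw_orb h1 h2, pw_orb h1 h2, k2])
        (fun t => by rw [k2, pw_orb h1 h2]; exact not_mem_of_fix (hf t) hz) (by rw [k3, k3]) t

lemma mem_cheese {r : ℝ} (hr0 : 0 ≤ r) (hr : r ≤ 1 / 4) {b : ℂ} (hb : θ * b ∈ Lam) :
    b + r ∈ cheese r := fun b' hb' => by
  by_cases h : ‖b - b'‖ < 1 / 2
  · rw [half_sep hb hb' h]; simp [abs_of_nonneg hr0]
  · have := norm_sub_le (b + r - b') r
    rw [show b + r - b' - r = b - b' by ring, Complex.norm_real, Real.norm_of_nonneg hr0] at this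
    linarith

lemma close_id {η : ℝ} (hη : 0 < η) : ∃ ε > 0, ∀ (k : Sph → Sph) (K : ℂ ≃ₜ ℂ), EqLift k K →
    (∀ x, dist x (k x) < ε) → ∀ z, ‖K z - z‖ ≤ η := by
  set r := min (η / 3) (1 / 10) with hr
  have r0 : 0 < r := by positivity
  have r1 : r ≤ η / 3 := min_le_left _ _
  have r2 : r ≤ 1 / 10 := min_le_right _ _
  obtain ⟨ε, hε, h⟩ := pw_unif (η := r / 2) (by positivity)
  refine ⟨ε, hε, fun k K hK hd => ?_⟩
  have h1 : ∀ z, ∃ c l : ℂ, c ^ Orb.N = 1 ∧ l ∈ Lam ∧ ‖K z - (c * z + l)‖ < r / 2 := fun z =>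
    h z (K z) (by rw [hK.lifts]; exact hd _)
  have h2 : ∀ b : ℂ, θ * b ∈ Lam → ∀ z₀ ∈ closedBall b r, ‖K z₀ - b‖ < 2 * r →
      ∀ z ∈ closedBall b r, ‖K z - b‖ < 2 * r := by
    intro b hb z₀ hz₀ h0 z hz
    refine (convex_closedBall b r).isPreconnected.gt_of_ne (f := fun z => ‖K z - b‖)
      (by fun_prop) (fun w hw => ?_) ⟨z₀, hz₀, h0⟩ hz
    obtain ⟨c, l, a1, a2, a3⟩ := h1 w
    have a4 : ‖K w - (c * b + l)‖ < 2 * r := by
      have := norm_add_le (K w - (c * w + l)) (c * (w - b))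
      rw [norm_mul, root_norm a1, one_mul,
        show K w - (c * w + l) + c * (w - b) = K w - (c * b + l) by ring] at this
      rw [mem_closedBall, dist_eq_norm] at hw
      linarith
    have a5 : θ * (c * b + l) ∈ Lam := by
      rw [show θ * (c * b + l) = c * (θ * b) + θ * l by ring]
      exact add_mem (Lam_mul (root_mem a1) hb) (Lam_mul θ_mem a2)
    by_cases a6 : ‖c * b + l - b‖ < 1 / 2
    · rw [half_sep a5 hb a6] at a4; exact a4.ne
    · have := norm_sub_le (K w - b) (K w - (c * b + l))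
      rw [sub_sub_sub_cancel_left] at this
      exact ne_of_gt (by linarith)
  have m0 := mem_cheese r0.le (by linarith) (b := 0) (by simp)
  have m1 := mem_cheese r0.le (by linarith) (b := 1) (by
    rw [mul_one]; exact θ_mem)
  obtain ⟨c, l, c1, c2, c3⟩ := h1 (0 + r)
  have h3 : ∀ z ∈ cheese r, ‖K z - (c * z + l)‖ < r / 2 := by
    intro z hz
    refine (isPreconnected_cheese r0 r2).gt_of_ne (f := fun z => ‖K z - (c * z + l)‖)
      (by fun_prop) (fun w hw => ?_) ⟨_, m0, c3⟩ hz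
    obtain ⟨c', l', a1, a2, a3⟩ := h1 w
    by_cases a4 : c' * w + l' = c * w + l
    · rw [a4] at a3; exact a3.ne
    have a5 : r ≤ ‖c' * w + l' - (c * w + l)‖ := by
      have b1 : (c⁻¹ * c') ^ Orb.N = 1 := by rw [mul_pow, a1, root_inv c1, one_mul]
      have b2 : c⁻¹ * (l' - l) ∈ Lam := Lam_mul (root_mem (root_inv c1)) (sub_mem a2 c2)
      have b3 : c' * w + l' - (c * w + l) = c * (c⁻¹ * c' * w + c⁻¹ * (l' - l) - w) := by
        linear_combination (-c' * w - l' + l) * mul_inv_cancel₀ (root_ne c1)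
      rw [b3, norm_mul, root_norm c1, one_mul]
      by_cases b4 : c⁻¹ * c' = 1
      · rw [b4, one_mul, add_sub_cancel_left]
        by_contra b5
        rw [b4, Lam_norm b2 (by linarith)] at b3
        exact a4 (by linear_combination b3)
      · obtain ⟨b, b5, b6⟩ := orb_fix (z := w) b1 b2 b4
        rw [b6, norm_mul]
        nlinarith [root_sub b1 b4, hw b b5, norm_nonneg (w - b)]
    have := norm_sub_le (K w - (c * w + l)) (K w - (c' * w + l'))
    rw [sub_sub_sub_cancel_left] at this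
    exact ne_of_gt (by linarith)
  have hrn : ‖(r : ℂ)‖ = r := by rw [Complex.norm_real, Real.norm_of_nonneg r0.le]
  have d1 : c = 1 := by
    by_contra hc
    have a1 := h3 _ m1
    rw [show (1 : ℂ) + r = 0 + r + 1 by ring, hK.add one_mem_Lam] at a1
    have := norm_sub_le (K (0 + r) - (c * (0 + r) + l)) (K (0 + r) + 1 - (c * (0 + r + 1) + l))
    rw [show K (0 + r) - (c * (0 + r) + l) - (K (0 + r) + 1 - (c * (0 + r + 1) + l)) = c - 1 by
      ring] at this
    linarith [root_sub c1 hc]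
  have d2 : l = 0 := by
    have a1 := h2 0 (by simp) 0 (mem_closedBall_self r0.le) (by
      rw [hK.fix 0 (pw_half (by simp))]; simpa using r0) (0 + r) (by simp [abs_of_pos r0])
    have := norm_sub_le (K (0 + r) - 0 - r) (K (0 + r) - (c * (0 + r) + l))
    rw [d1, show K (0 + r) - 0 - r - (K (0 + r) - (1 * (0 + r) + l)) = l by ring] at this
    rw [d1] at c3
    have a2 := norm_sub_le (K (0 + r) - 0) r
    exact Lam_norm c2 (by linarith)
  simp only [d1, d2, one_mul, add_zero] at h3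
  intro z
  by_cases hz : z ∈ cheese r
  · linarith [h3 z hz]
  · simp only [cheese, mem_ofPred_eq, not_forall, not_le] at hz
    obtain ⟨b, hb, hz⟩ := hz
    have a1 := h3 _ (mem_cheese r0.le (by linarith) hb)
    have a2 := norm_add_le (K (b + r) - (b + r)) r
    rw [show K (b + r) - (b + r) + r = K (b + r) - b by ring] at a2
    have a3 := h2 b hb (b + r) (by simp [abs_of_pos r0]) (by linarith) z
      (by rw [mem_closedBall, dist_eq_norm]; exact hz.le)
    have a4 := norm_sub_le (K z - b) (z - b)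
    rw [sub_sub_sub_cancel_right] at a4
    linarith

/-- Close maps have close lifts. -/
theorem close_lifts {η : ℝ} (hη : 0 < η) : ∃ ε > 0, ∀ (h : Sph ≃ₜ Sph) (h' : Sph → Sph)
    (H H' : ℂ ≃ₜ ℂ), EqLift h H → EqLift h' H' → (∀ x, dist (h x) (h' x) < ε) →
      ∀ z, ‖H' z - H z‖ ≤ η := by
  obtain ⟨ε, hε, h1⟩ := close_id hη
  refine ⟨ε, hε, fun h h' H H' a b hd z => ?_⟩
  simpa using h1 _ _ (a.symm.trans b) (fun x => by simpa using hd (h.symm x)) (H z)

end

end Pool.Agent.Lib.MP_21db80_an.Gen
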