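import Pool.Agent.Lib.MP_21db80_an.G.GInv
import Pool.Agent.Lib.MP_21db80_an.G.Fam

/-!
Closed deformations with prescribed winding.
-/

namespace Pool.Agent.Lib.MP_21db80_an.Gen

open OnePoint Set Topology Function Filter Metric unitInterval

noncomputable section

variable [Orb]

lemma move {α : ℂ} {F : Set Sph} {Gw : ℂ → Sph → Sph} (hM : Moves α F Gw) (hB : B3 ⊆ F)
    (hα : (α : Sph) ∈ F) (hw' : ∀ w : ℂ, (w : Sph) ∉ F → Gw w w = α) {a w c : I → ℂ}
    (ha : Continuous a) (hc : Continuous c) (hw : ∀ t, pw (a t) = w t)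
    (hg : ∀ t, (w t : Sph) ∉ F) {q : ℂ} (hq : pw q = α) (hqB : pw q ∉ B3) (c0' : c 0 = 0)
    (hce : ∀ t, Complex.exp (c t) * (a 0 - q) = a t - q) :
    ∃ (u : I → Sph ≃ₜ Sph) (l : Sph ≃ₜ Sph) (U L : ℂ ≃ₜ ℂ) (Λ : ℂ × ℂ → ℂ), CFam u ∧
      (∀ x, u 0 x = x) ∧ (∀ t, ∀ x ∈ B3, u t x = x) ∧ (∀ t, u t (w 0) = w t) ∧
      IsoRel (insert (α : Sph) B3) l ∧ Data (Gw (w 0)) (Gw (w 1)) (u 1) l U L Λ ∧
      U (a 0) = a 1 ∧ L q = q ∧ Λ (a 0, q) = c 1 := by
  have wc : Continuous w := by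
    have : w = fun t => c0 (pw (a t)) := funext fun t => by rw [hw]; rfl
    rw [this]
    exact continuous_iff_continuousAt.2 fun t => (continuousAt_c0 (hw t ▸ coe_ne_infty _)).comp_of_eq
      (continuous_pw.comp ha).continuousAt rfl
  obtain ⟨u, l, u1, l1, u2, l2, u3, l3, hQ, u4, u5⟩ := hM w wc hg
  obtain ⟨U, L, Λ, d1, d2⟩ := data_of_isotopy (G := fun t => Gw (w t)) u1 l1 u2 l2 u3
    (fun t x hx => l3 t x (Or.inr hx)) hQ u4
  exact ⟨u, l 1, U, L, Λ, u1, u2, u3, u5, isoRel_iff.2 ⟨l, l1, l2, fun _ => rfl, l3⟩, d1,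
    d2 (a 0, q) ⟨by rw [hw, hq]; exact hw' _ (hg 0), fun e => hg 0 (by
        have : (w 0 : Sph) = α := by rw [← hw, ← hq]; exact congrArg pw e
        rwa [this])⟩ a (fun _ => q) c ha continuous_const hc rfl rfl c0'
      (fun h => hg 0 (hB (hw 0 ▸ h))) hqB (fun t => by rw [hw, hw, u5]) (fun t => by
        rw [hq, l3 t _ (Or.inl rfl)]) hce⟩

/-- A closed deformation, trivial upstairs and downstairs, with winding number `n`. -/
theorem exists_twist {G : Sph → Sph} (hG : Q3 G) {w₀ α : ℂ} (hF : InFam G w₀ α) {p q : ℂ}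
    (hp : pw p = w₀) (hq : pw q = α) (hqB : pw q ∉ B3) (n : ℤ) :
    ∃ (u l : Sph ≃ₜ Sph) (U L : ℂ ≃ₜ ℂ) (Λ : ℂ × ℂ → ℂ), Data G G u l U L Λ ∧
      Λ (p, q) = n * (2 * Real.pi * Complex.I) ∧ IsoRel (insert (pw p) B3) u ∧
        IsoRel (insert (pw q) B3) l := by
  obtain ⟨F, Gw, hF, hB, hαF, hwF, hGw, hw', hM⟩ := hF
  have gF : ∀ z, pw z ∉ F → pw z = c0 (pw z) ∧ ((c0 (pw z) : ℂ) : Sph) ∉ F := fun z hz => by
    have a1 := coe_c0 (x := pw z) fun e => hz (hB (e ▸ infty_mem))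
    exact ⟨a1.symm, by rwa [a1]⟩
  have pF : pw p ∉ F := hp ▸ hwF
  obtain ⟨W, hW, s, s1, s2, s3⟩ := exists_section finite_B3 hqB
  obtain ⟨r, hr, hr'⟩ : ∃ r : ℝ, 0 < r ∧ ∀ z, ‖z - q‖ = r → pw z ∉ F ∧ pw z ∈ W := by
    obtain ⟨δ, hδ, hδ'⟩ := orb_discrete q
    have a1 : (F \ {pw q})ᶜ ∈ 𝓝 (pw q) :=
      (hF.subset sdiff_subset).isClosed.isOpen_compl.mem_nhds fun h => h.2 rfl
    obtain ⟨ε, hε, hε'⟩ := Metric.mem_nhds_iff.1 (continuous_pw.continuousAt (inter_mem hW a1))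
    refine ⟨min δ ε / 2, by positivity, fun z hz => ?_⟩
    have a2 := hε' (show z ∈ ball q ε by
      rw [mem_ball, dist_eq_norm, hz]; linarith [min_le_right δ ε])
    refine ⟨fun h => a2.2 ⟨h, fun h' => ?_⟩, a2.1⟩
    obtain ⟨k, l, b1, b2, rfl⟩ := pw_fibre (Eq.symm h')
    rw [hδ' k l b1 b2 (by rw [hz]; linarith [min_le_left δ ε]), sub_self, norm_zero] at hz
    have : 0 < min δ ε / 2 := by positivity
    exact this.ne hz
  obtain ⟨cr, hcr⟩ : ∃ cr : I → ℂ,
      ∀ t, cr t = Complex.exp (t * (n * (2 * Real.pi * Complex.I))) := ⟨_, fun _ => rfl⟩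
  have cr0 : cr 0 = 1 := by simp [hcr]
  have e01 : cr 1 = cr 0 := by simp [hcr, Complex.exp_int_mul_two_pi_mul_I]
  have crc : Continuous cr := by
    rw [funext hcr]
    fun_prop
  have hrn : ∀ t, ‖q + r * cr t - q‖ = r := fun t => by
    have a1 : ‖cr t‖ = 1 := by
      rw [hcr, ← Complex.norm_exp_ofReal_mul_I (t * (n * (2 * Real.pi)))]
      congr 2
      push_cast
      ring
    rw [add_sub_cancel_left, norm_mul, a1, Complex.norm_real, Real.norm_of_nonneg hr.le, mul_one]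
  have hcount : (pw ⁻¹' F).Countable := by
    rw [← biUnion_preimage_singleton]
    exact hF.countable.biUnion fun y _ => countable_fibre y
  obtain ⟨γ, hγ⟩ := (hcount.isPathConnected_compl_of_one_lt_rank
    (by rw [Complex.rank_real_complex]; norm_num)).joinedIn p pF (q + r * cr 0) (hr' _ (hrn 0)).1
  have hne : ∀ z, pw z ∉ F → z - q ≠ 0 := fun z hz => sub_ne_zero.2 fun h =>
    hz (by rwa [h, hq])
  obtain ⟨c, c1, c2, c3⟩ := lift_exp (G := fun x : I × Unit => (γ x.1 - q) / (p - q)) (by fun_prop)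
    (fun x => div_ne_zero (hne _ (hγ _)) (hne _ pF)) (L₀ := fun _ => 0) continuous_const
    fun _ => by simp [div_self (hne _ pF)]
  obtain ⟨u, l, U, L, Λ, -, -, a3, a4, a5, a6, a7, a8, -⟩ := move hM hB hαF hw' (a := γ)
    (w := fun t => c0 (pw (γ t))) (c := fun t => c (t, ())) γ.continuous (by fun_prop)
    (fun t => (gF _ (hγ t)).1) (fun t => (gF _ (hγ t)).2) hq hqB (c3 _) fun t => by
      rw [c2, γ.source, div_mul_cancel₀ _ (hne _ pF)]
  obtain ⟨u', l', U', L', Λ', b1, b2, b3, b4, b5, b6, b7, b8, b9⟩ := move hM hB hαF hw'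
    (a := fun t => q + r * cr t) (w := fun t => c0 (pw (q + r * cr t)))
    (c := fun t => t * (n * (2 * Real.pi * Complex.I))) (by fun_prop)
    (by fun_prop) (fun t => (gF _ (hr' _ (hrn t)).1).1) (fun t => (gF _ (hr' _ (hrn t)).1).2) hq
    hqB (by simp) fun t => by rw [cr0, hcr]; ring
  simp only [Path.source, Path.target, hp, c0_coe, hGw, e01] at a4 a6 a7 b6 b7
  simp only [← (gF _ (hr' _ (hrn _)).1).1] at b4
  have i1 : IsoRel (insert (pw (q + r * cr 0)) B3) (u' 1) := by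
    have hc : CFam fun t => s (pw (q + r * cr t)) :=
      s1.comp_continuous (f := fun x : I × Sph => (pw (q + r * cr x.1), x.2))
        (by have := continuous_pw; fun_prop)
        fun x => ⟨(hr' _ (hrn x.1)).2, trivial⟩
    refine isoRel_iff.2 ⟨fun t => ((u' t).trans (s (pw (q + r * cr t))).symm).trans
      (s (pw (q + r * cr 0))), (b1.trans hc.symm).trans (cfam_const _), fun x => by simp [b2],
      fun x => by simp [e01], fun t x hx => ?_⟩
    simp only [Homeomorph.trans_apply]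
    rcases hx with rfl | hx
    · rw [b4, show (s (pw (q + r * cr t))).symm (pw (q + r * cr t)) = pw q by
        rw [Homeomorph.symm_apply_eq, s2 _ (hr' _ (hrn t)).2], s2 _ (hr' _ (hrn 0)).2]
    · rw [b3 t x hx, show (s (pw (q + r * cr t))).symm x = x by
        rw [Homeomorph.symm_apply_eq, s3 _ x hx], s3 _ x hx]
  refine ⟨_, _, _, _, _, (a6.trans b6).trans (a6.symm hG), ?_, ?_, ?_⟩
  · simp only [Homeomorph.trans_apply, a7, a8, b7, b8, b9]
    rw [← a7, Homeomorph.symm_apply_apply, show L.symm q = q by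
      rw [Homeomorph.symm_apply_eq, a8]]
    simp
  · refine i1.conj (u 1) fun y hy => ?_
    rcases hy with rfl | hy
    · left
      rw [hp, a4, γ.target, ← (gF _ (hr' _ (hrn _)).1).1]
    · rw [a3 1 y hy]; exact Or.inr hy
  · rw [hq]; exact (a5.trans b5).trans a5.symm

end

end Pool.Agent.Lib.MP_21db80_an.Gen
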