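import Pool.Agent.Lib.MP_21db80_an.H39Between

/-!
Euclidean orbifold coverings of the sphere with cone points `0, 1, ∞`.
-/

namespace Pool.Agent.Lib.MP_21db80_an.Gen

open OnePoint Set Topology Function Filter Metric Complex

noncomputable section

/-- An orbifold covering of the sphere by the plane with deck group `z ↦ k z + l`,
`k ^ N = 1`, `l ∈ Lam`. -/
class Orb where
  Lam : Submodule ℤ ℂ
  N : ℕ
  θ : ℂ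
  pw : ℂ → Sph
  N_ne : N ≠ 0
  Lam_mul : ∀ {z w : ℂ}, z ∈ Lam → w ∈ Lam → z * w ∈ Lam
  one_mem_Lam : (1 : ℂ) ∈ Lam
  θ_mem : θ ∈ Lam
  θ_ne : θ ≠ 0
  θ_le : ‖θ‖ ≤ 2
  root_mem : ∀ {k : ℂ}, k ^ N = 1 → k ∈ Lam
  root_θ : ∀ {k : ℂ}, k ^ N = 1 → k ≠ 1 → ∃ j ∈ Lam, j * (1 - k) = θ
  Lam_norm : ∀ {l : ℂ}, l ∈ Lam → ‖l‖ < 1 → l = 0
  exists_Lam_near : ∀ z : ℂ, ∃ l ∈ Lam, ‖z - l‖ ≤ 1
  countable_Lam : (Lam : Set ℂ).Countable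
  anS_pw : ∀ z, AnS pw z
  pw_surj : Surjective pw
  pw_eq_infty : ∀ {z : ℂ}, pw z = ∞ ↔ z ∈ Lam
  pw_orb : ∀ {k l : ℂ}, k ^ N = 1 → l ∈ Lam → ∀ z, pw (k * z + l) = pw z
  pw_fibre : ∀ {z z' : ℂ}, pw z = pw z' → ∃ k l : ℂ, k ^ N = 1 ∧ l ∈ Lam ∧ z' = k * z + l
  pw_half : ∀ {z : ℂ}, θ * z ∈ Lam → pw z ∈ B3
  isOpenMap_pw : IsOpenMap pw

export Orb (Lam θ pw Lam_mul one_mem_Lam θ_mem θ_ne θ_le root_mem root_θ Lam_norm exists_Lam_near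
  countable_Lam anS_pw pw_surj pw_eq_infty pw_orb pw_fibre pw_half isOpenMap_pw)

end

end Pool.Agent.Lib.MP_21db80_an.Gen
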